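import Pool.Agent.Q53.EX.Desc0

/-!
# Project EX, job DESC: the main argument
-/

set_option autoImplicit false
set_option linter.unusedSectionVars false
set_option linter.deprecated false

namespace Pool.Agent.Q53.EX

open NumberField IsDedekindDomain Pool.Agent.Q5.BR Pool.Agent.Q92.AR Pool.Agent.Q20.EX
open Pool.Agent.TeamU (act act_one act_mul mem_act)
open Pool.Agent.Q125.AR (Ray_mono Ram_mono art_eq_sum chi_frob mem_under finite_dvd)

theorem single_mem_Pr {F : Type} [Field F] [NumberField F] {N : ℕ} {v : HeightOneSpectrum (𝓞 F)}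
    (hv : (N : 𝓞 F) ∉ v.asIdeal) (k : ℤ) : Finsupp.single v k ∈ Pr F N := by
  classical
  intro w hw
  rw [Finsupp.single_apply, if_neg]
  rintro rfl
  exact hv hw

section cj
variable {F E M : Type} [Field F] [Field E] [Field M] [Algebra F E] [Algebra E M] [Algebra F M]
  [IsScalarTower F E M] [Normal F E]

/-- conjugation -/
noncomputable def cj (g : M ≃ₐ[F] M) (h : M ≃ₐ[E] M) : M ≃ₐ[E] M :=
  AlgEquiv.ofRingEquiv (f := (g * h.restrictScalars F * g⁻¹).toRingEquiv) (fun x => by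
    change g (h (g⁻¹ (algebraMap E M x))) = algebraMap E M x
    rw [← AlgEquiv.restrictNormal_commutes g⁻¹ E x, h.commutes, AlgEquiv.restrictNormal_commutes,
      ← AlgEquiv.mul_apply, mul_inv_cancel]
    rfl)

theorem cj_apply (g : M ≃ₐ[F] M) (h : M ≃ₐ[E] M) (x : M) : cj g h x = g (h (g⁻¹ x)) := rfl

variable (F) in
/-- restriction of scalars -/
def rsh : (M ≃ₐ[E] M) →* (M ≃ₐ[F] M) where
  toFun h := h.restrictScalars F
  map_one' := rfl
  map_mul' _ _ := rfl

theorem rsh_apply (h : M ≃ₐ[E] M) (x : M) : rsh F h x = h x := rfl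

/-- an automorphism which is trivial on `E` -/
theorem exists_rsh (g : M ≃ₐ[F] M) (hg : ∀ x : E, g (algebraMap E M x) = algebraMap E M x) :
    ∃ h : M ≃ₐ[E] M, ∀ x, h x = g x :=
  ⟨AlgEquiv.ofRingEquiv (f := g.toRingEquiv) hg, fun _ => rfl⟩

end cj

theorem desc_core (hRF : S_RF) (hFR : S_FR) (hNK : S_NKer) (hTow : S_Tow) (hCheb : S_Cheb)
    (hAR : S_AR) (hCF : S_CF) (F E M M1 : Type) [Field F] [NumberField F] [Field E] [NumberField E]
    [Field M] [NumberField M] [Field M1] [NumberField M1] [Algebra F E] [Algebra E M]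
    [Algebra M M1] [Algebra F M1] [Algebra E M1] [IsScalarTower F E M1] [IsScalarTower E M M1]
    [IsGalois F E] [IsGalois E M] [IsGalois F M1] [IsGalois E M1] (σ : E ≃ₐ[F] E)
    (hσ : ∀ g : E ≃ₐ[F] E, g ∈ Subgroup.zpowers σ) (N N1 : ℕ) (χ : Dv F →+ Additive ℂˣ)
    (κ : (M ≃ₐ[E] M) →* ℂˣ) (hN : N ≠ 0) (hN1 : N1 ≠ 0) (hχ : ∀ x ∈ Ray F N, χ (prin x) = 0)
    (hκ : ∀ D ∈ Pr E N1, art κ D = χ (nmD F E D)) : IsArt N χ := by
  classical
  let κ1 : (M1 ≃ₐ[E] M1) →* ℂˣ := κ.comp (AlgEquiv.restrictNormalHom M)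
  obtain ⟨Na, hNa, hRa⟩ := hRF F M1
  obtain ⟨Nc, hNc, hRc⟩ := hRF E M1
  obtain ⟨Nb, hNb⟩ : ∃ Nb, Nb = N1 * Nc := ⟨_, rfl⟩
  have hNb0 : Nb ≠ 0 := by
    rw [hNb]
    exact mul_ne_zero hN1 hNc
  have hRb : Ram E M1 Nb := by
    rw [hNb]
    exact Ram_mono (dvd_mul_left Nc N1) hRc
  have hκ1 : ∀ D ∈ Pr E Nb, art κ1 D = χ (nmD F E D) := by
    intro D hD
    rw [art_infl hFR E M M1 hRb κ κ1 (fun g => rfl) hD]
    rw [hNb] at hD
    exact hκ D (Pr_mono (dvd_mul_right N1 Nc) hD)
  -- invariance under conjugation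
  have hconj : ∀ (g : M1 ≃ₐ[F] M1) (h : M1 ≃ₐ[E] M1), κ1 (cj g h) = κ1 h := by
    intro g h
    obtain ⟨v, hvB, hvu, hvF⟩ := hCheb E M1 h {v | (Nb : 𝓞 E) ∈ v.asIdeal} (finite_dvd hNb0)
    have hvB' : (Nb : 𝓞 E) ∉ v.asIdeal := hvB
    have hv' : (Nb : 𝓞 E) ∉ (act (AlgEquiv.restrictNormal g E) v).asIdeal := by
      intro h1
      rw [mem_act, map_natCast] at h1
      exact hvB h1
    have hvu' : Unramified M1 (act (AlgEquiv.restrictNormal g E) v) := by
      by_contra h1
      exact hv' (hRb _ h1)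
    have h2 : IsFrobenius (act (AlgEquiv.restrictNormal g E) v) (cj g h) :=
      isFrobenius_conj_base g (fun x => rfl) hvF
    have e1 : Additive.ofMul (κ1 h) = χ (nmD F E (Finsupp.single v 1)) := by
      rw [← hκ1 _ (single_mem_Pr hvB' 1), art_single, one_smul,
        chi_frob hvu hvF (frob_spec v) κ1]
    have e2 : Additive.ofMul (κ1 (cj g h)) =
        χ (nmD F E (Finsupp.single (act (AlgEquiv.restrictNormal g E) v) 1)) := by
      rw [← hκ1 _ (single_mem_Pr hv' 1), art_single, one_smul,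
        chi_frob hvu' h2 (frob_spec _) κ1]
    have e3 : nmD F E (Finsupp.single (act (AlgEquiv.restrictNormal g E) v) 1) =
        nmD F E (Finsupp.single v 1) := by
      rw [nmD_single, nmD_single, Pool.Agent.Q149.AR.act_under, Pool.Agent.Q149.AR.rdeg_act]
    rw [e3, ← e1] at e2
    exact Additive.ofMul.injective e2
  -- the field
  let H : Subgroup (M1 ≃ₐ[E] M1) := κ1.ker
  let M' : IntermediateField E M1 := IntermediateField.fixedField H
  have hfix : M'.fixingSubgroup = H := IntermediateField.fixingSubgroup_fixedField H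
  have hGE : IsGalois E M' := IsGalois.of_fixedField_normal_subgroup H
  have hmem : ∀ x : M1, x ∈ M' ↔ ∀ h : M1 ≃ₐ[E] M1, κ1 h = 1 → h x = x := by
    intro x
    exact IntermediateField.mem_fixedField_iff H x
  let H' : Subgroup (M1 ≃ₐ[F] M1) := H.map (rsh F)
  have hH' : H'.Normal := ⟨by
    rintro _ ⟨h, hh, rfl⟩ g
    refine ⟨cj g h, ?_, ?_⟩
    · change κ1 (cj g h) = 1
      rw [hconj]
      exact hh
    · rfl⟩
  let M'F : IntermediateField F M1 := IntermediateField.fixedField H'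
  have hGF : IsGalois F M'F := IsGalois.of_fixedField_normal_subgroup H'
  have hmemF : ∀ x : M1, x ∈ M'F ↔ x ∈ M' := by
    intro x
    rw [hmem, IntermediateField.mem_fixedField_iff]
    constructor
    · intro h1 h hh
      exact h1 (rsh F h) ⟨h, hh, rfl⟩
    · rintro h1 _ ⟨h, hh, rfl⟩
      exact h1 h hh
  have hT1 : IsScalarTower F M' M1 := IsScalarTower.of_algebraMap_eq fun x => by
    rw [IsScalarTower.algebraMap_apply F E M' x]
    exact IsScalarTower.algebraMap_apply F E M1 x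
  have hG : IsGalois F M' := by
    let e : M'F ≃ₐ[F] M' :=
      { toFun := fun x => ⟨x.1, (hmemF x.1).1 x.2⟩
        invFun := fun x => ⟨x.1, (hmemF x.1).2 x.2⟩
        left_inv := fun x => rfl
        right_inv := fun x => rfl
        map_mul' := fun x y => rfl
        map_add' := fun x y => rfl
        commutes' := fun x => by
          apply Subtype.ext
          change algebraMap F M1 x = algebraMap M' M1 (algebraMap F M' x)
          exact IsScalarTower.algebraMap_apply F M' M1 x }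
    exact IsGalois.of_algEquiv e
  -- the group is abelian
  have hcycE : IsCyclic (E ≃ₐ[F] E) := ⟨⟨σ, hσ⟩⟩
  have hsurj : Function.Surjective
      (AlgEquiv.restrictNormalHom M' : (M1 ≃ₐ[F] M1) →* (M' ≃ₐ[F] M')) :=
    AlgEquiv.restrictNormalHom_surjective M1
  have hres : ∀ (g : M1 ≃ₐ[F] M1) (x : M'),
      algebraMap M' M1 (AlgEquiv.restrictNormalHom M' g x) = g (algebraMap M' M1 x) :=
    fun g x => AlgEquiv.restrictNormal_commutes g M' x
  have hab : ∀ a b : M' ≃ₐ[F] M', a * b = b * a := by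
    apply commutative_of_cyclic_center_quotient
      (AlgEquiv.restrictNormalHom E : (M' ≃ₐ[F] M') →* (E ≃ₐ[F] E))
    intro c hc
    rw [MonoidHom.mem_ker] at hc
    rw [Subgroup.mem_center_iff]
    intro g
    obtain ⟨c, rfl⟩ := hsurj c
    obtain ⟨g, rfl⟩ := hsurj g
    have hcE : ∀ x : E, c (algebraMap E M1 x) = algebraMap E M1 x := by
      intro x
      have h1 : c (algebraMap M' M1 (algebraMap E M' x)) =
          algebraMap M' M1 (algebraMap E M' x) := by
        rw [← hres]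
        congr 1
        have h2 : algebraMap E M' (AlgEquiv.restrictNormalHom E
            (AlgEquiv.restrictNormalHom M' c) x) =
            (AlgEquiv.restrictNormalHom M' c) (algebraMap E M' x) :=
          AlgEquiv.restrictNormal_commutes _ E x
        rw [← h2, hc]
        rfl
      exact h1
    obtain ⟨u, hu⟩ := exists_rsh c hcE
    have h3 : κ1 (u⁻¹ * cj g u) = 1 := by
      rw [map_mul, hconj, map_inv, inv_mul_cancel]
    have h4 : ∀ z ∈ M', cj g u z = u z := by
      intro z hz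
      have h5 := (hmem z).1 hz _ h3
      rw [AlgEquiv.mul_apply] at h5
      have h6 := congrArg u h5
      rw [← AlgEquiv.mul_apply, mul_inv_cancel] at h6
      exact h6
    ext z
    have h7 : (AlgEquiv.restrictNormalHom M' g z).1 = g z.1 := hres g z
    have h8 := h4 _ (AlgEquiv.restrictNormalHom M' g z).2
    rw [cj_apply, h7, hu, hu, ← AlgEquiv.mul_apply g⁻¹ g, inv_mul_cancel] at h8
    change algebraMap M' M1 (AlgEquiv.restrictNormalHom M' g (AlgEquiv.restrictNormalHom M' c z)) =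
      algebraMap M' M1 (AlgEquiv.restrictNormalHom M' c (AlgEquiv.restrictNormalHom M' g z))
    rw [hres, hres, hres, hres]
    exact h8
  -- the modulus
  obtain ⟨Nr, hNr, hr⟩ := recip_all hAR F M'
  obtain ⟨N', hN'⟩ : ∃ N', N' = N * Nb * Na * Nr := ⟨_, rfl⟩
  have hN'0 : N' ≠ 0 := by
    rw [hN']
    exact mul_ne_zero (mul_ne_zero (mul_ne_zero hN hNb0) hNa) hNr
  have d1 : N ∣ N' := ⟨Nb * Na * Nr, by rw [hN']; ring⟩
  have d2 : Nb ∣ N' := ⟨N * Na * Nr, by rw [hN']; ring⟩
  have d3 : Na ∣ N' := ⟨N * Nb * Nr, by rw [hN']; ring⟩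
  have d4 : Nr ∣ N' := ⟨N * Nb * Na, by rw [hN']; ring⟩
  have hRF' : Ram F M' N' := fun v hv => Ram_mono d3 hRa v fun h => hv h.sub
  have hRE' : Ram E M' N' := fun v hv => Ram_mono d2 hRb v fun h => hv h.sub
  -- the character of the quotient
  let resE : (M1 ≃ₐ[E] M1) →* (M' ≃ₐ[E] M') := AlgEquiv.restrictNormalHom M'
  have hresE : Function.Surjective resE := AlgEquiv.restrictNormalHom_surjective M1
  have hkerE : resE.ker = κ1.ker := by
    change resE.ker = H
    rw [← hfix]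
    exact IntermediateField.restrictNormalHom_ker M'
  let κ' : (M' ≃ₐ[E] M') →* ℂˣ := (MonoidHom.liftOfSurjective resE hresE) ⟨κ1, hkerE.le⟩
  have hκ' : ∀ g, κ' (resE g) = κ1 g := fun g =>
    MonoidHom.liftOfRightInverse_comp_apply resE _ _ ⟨κ1, hkerE.le⟩ g
  have hkill : ∀ D ∈ HN F M' N', χ D = 0 := by
    have hle : HN F M' N' ≤ χ.ker := by
      unfold HN
      rw [sup_le_iff]
      constructor
      · unfold RayD
        rw [AddSubgroup.closure_le]
        rintro _ ⟨x, hx, rfl⟩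
        exact hχ x (Ray_mono d1 hx)
      · rintro _ ⟨D, hD, rfl⟩
        change χ (nmD F M' D) = 0
        rw [← hTow F E M' D]
        have h1 : nmD E M' D ∈ Pr E N' := Pool.Agent.Q106.AR.nm_Pr hD
        have h2 := hκ1 _ (Pr_mono d2 h1)
        rw [← h2, art_infl hFR E M' M1 (Ram_mono d2 hRb) κ' κ1 (fun g => (hκ' g).symm) h1]
        exact (hNK E M' κ' N' hN'0).1 hRE' D hD
    exact fun D hD => hle hD
  obtain ⟨ψ, hψ⟩ := hCF F M' hab N' hN'0 hRF'
    (fun ψ x hx => hr ψ x (Ray_mono d4 hx)) χ hkill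
  exact ⟨M', inferInstance, inferInstance, inferInstance, hG, ψ, N', hN'0, d1, hRF', hψ⟩

theorem desc_of (hRF : S_RF) (hFR : S_FR) (hNK : S_NKer) (hTow : S_Tow) (hCheb : S_Cheb)
    (hAR : S_AR) : S_DESC := by
  intro hCF F E M _ _ _ _ _ _ _ _ _ _ σ hσ N N1 χ κ hN hN1 hχ hκ
  letI : Algebra F M := ((algebraMap E M).comp (algebraMap F E)).toAlgebra
  haveI : IsScalarTower F E M := IsScalarTower.of_algebraMap_eq fun x => rfl
  obtain ⟨M1, i1, i2, i3, i4, i5, i6⟩ := exists_gal F M
  letI : Algebra E M1 := ((algebraMap M M1).comp (algebraMap E M)).toAlgebra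
  haveI : IsScalarTower E M M1 := IsScalarTower.of_algebraMap_eq fun x => rfl
  haveI : IsScalarTower F E M1 := IsScalarTower.of_algebraMap_eq fun x => by
    rw [IsScalarTower.algebraMap_apply F M M1]
    rfl
  haveI : IsGalois E M1 := IsGalois.tower_top_of_isGalois F E M1
  exact desc_core hRF hFR hNK hTow hCheb hAR hCF F E M M1 σ hσ N N1 χ κ hN hN1 hχ hκ

end Pool.Agent.Q53.EX
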