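import Pool.Agent.Q20.EX.Stm2
import Pool.Agent.Q53.EX.Desc1
import Pool.Agent.Q280.AR.Tow
import Pool.Agent.Q225.AR.FR

/-!
# Project EX, job TW2: lemmas
-/

set_option autoImplicit false
set_option linter.unusedSectionVars false
set_option linter.deprecated false

namespace Pool.Agent.Q53.EX

open NumberField IsDedekindDomain Pool.Agent.Q5.BR Pool.Agent.Q92.AR Pool.Agent.Q20.EX
open Pool.Agent.TeamU (act act_one act_mul mem_act val_act')
open Pool.Agent.Q125.AR (Ray_mono Ram_mono art_eq_sum chi_frob mem_under finite_dvd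
  prin_eq_zero_of_valuation)
open Pool.Agent.Q92.PA (rd_eq_iff)
open Pool.Agent.W353.NF (oi)

section
variable {F M : Type} [Field F] [NumberField F] [Field M] [NumberField M] [Algebra F M]

/-- inertia elements at unramified primes are trivial -/
theorem inert_eq_one [IsGalois F M] {w : HeightOneSpectrum (𝓞 M)} {g : M ≃ₐ[F] M}
    (hu : Unramified M (w.under (𝓞 F))) (hg : Inert w g) : g = 1 := by
  obtain ⟨σ, Q, hQm, hQv, hQ⟩ := Pool.Agent.W401.Frob.exists_frob (w.under (𝓞 F))
  obtain ⟨ι, hι⟩ := exists_emb' hQm hQv w rfl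
  have h1 : ι.comp (g : M →ₐ[F] M) = ι := by
    apply rd_injective hu hQm hQv hQ
    rw [rd_eq_iff]
    intro a
    have hga : IsIntegral ℤ (g (a : M)) := a.2.map g
    obtain ⟨b, hb⟩ : ∃ b : 𝓞 M, (b : M) = g (a : M) := ⟨⟨g (a : M), hga⟩, rfl⟩
    have h2 : b - a ∈ w.asIdeal := by
      have h3 := hg a
      rw [← hb] at h3
      exact (w.valuation_lt_one_iff_mem (K := M) (b - a)).1 h3
    have h4 := (hι (b - a)).2 h2
    have e : oi (ι.comp (g : M →ₐ[F] M)) a - oi ι a = oi ι (b - a) := by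
      apply RingOfIntegers.ext
      change ι (g (a : M)) - ι (a : M) = ι (((b - a : 𝓞 M) : M))
      have e2 : ((b - a : 𝓞 M) : M) = (b : M) - (a : M) := rfl
      rw [e2, map_sub, hb]
    rw [e]
    exact h4
  ext x
  have h2 := DFunLike.congr_fun h1 x
  exact ι.injective h2

theorem ramSet_sub [IsGalois F M] {ψ : (M ≃ₐ[F] M) →* ℂˣ} {N : ℕ} (hR : Ram F M N) :
    RamSet ψ ⊆ primesOf F N := by
  rintro v ⟨w, rfl, g, hg, hψ⟩
  have h1 : ¬ Unramified M (w.under (𝓞 F)) := by
    intro hu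
    apply hψ
    rw [inert_eq_one hu hg, map_one]
  exact hR _ h1

theorem inert_conj {w : HeightOneSpectrum (𝓞 M)} {g : M ≃ₐ[F] M} (τ : M ≃ₐ[F] M)
    (hg : Inert w g) : Inert (act τ w) (τ * g * τ⁻¹) := by
  intro x
  rw [val_act']
  have hx : IsIntegral ℤ (τ.symm (x : M)) := x.2.map τ.symm
  obtain ⟨y, hy⟩ : ∃ y : 𝓞 M, (y : M) = τ.symm (x : M) := ⟨⟨τ.symm (x : M), hx⟩, rfl⟩
  have h1 := hg y
  rw [hy] at h1
  have e : τ.symm ((τ * g * τ⁻¹) (x : M) - (x : M)) = g (τ.symm (x : M)) - τ.symm (x : M) := by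
    rw [map_sub]
    congr 1
    exact τ.symm_apply_apply _
  rw [e]
  exact h1

theorem CongAt_mono {A : Set (HeightOneSpectrum (𝓞 F))} {N N' : ℕ} (h : N ∣ N') {x : F}
    (hx : CongAt A N' x) : CongAt A N x := by
  intro v hv hN
  refine (hx v hv (by
    obtain ⟨k, rfl⟩ := h
    rw [Nat.cast_mul]
    exact v.asIdeal.mul_mem_right _ hN)).trans ?_
  obtain ⟨k, rfl⟩ := h
  rw [Nat.cast_mul, map_mul]
  have h2 : v.valuation F (k : F) ≤ 1 := by
    have h3 := v.valuation_le_one (K := F) (k : 𝓞 F)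
    simpa using h3
  exact mul_le_of_le_one_right' h2

theorem TrivAt_mono {S : Set (HeightOneSpectrum (𝓞 F))} {N N' : ℕ} (h : N ∣ N')
    {χ : Dv F →+ Additive ℂˣ} (hχ : TrivAt S N χ) : TrivAt S N' χ := by
  intro x hx1 hx2 hx3
  refine hχ x (fun v hv => hx1 v ?_) hx2 (CongAt_mono h hx3)
  obtain ⟨k, rfl⟩ := h
  rw [Nat.cast_mul]
  exact v.asIdeal.mul_mem_right _ hv

theorem prin_mem_Pr_of_Un {N : ℕ} {x : Fˣ} (hx : Un N x) : prin x ∈ Pr F N :=
  fun v hv => prin_eq_zero_of_valuation (hx v hv)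

end

section tower
variable {K L M : Type} [Field K] [NumberField K] [Field L] [NumberField L] [Field M]
  [NumberField M] [Algebra K L] [Algebra L M] [Algebra K M] [IsScalarTower K L M]

theorem under_act (g1 : M ≃ₐ[K] M) (g : L ≃ₐ[K] L)
    (h : ∀ x : L, g1 (algebraMap L M x) = algebraMap L M (g x)) (w : HeightOneSpectrum (𝓞 M)) :
    (act g1 w).under (𝓞 L) = act g (w.under (𝓞 L)) := by
  apply HeightOneSpectrum.ext
  ext x
  rw [mem_act]
  change algebraMap (𝓞 L) (𝓞 M) x ∈ (act g1 w).asIdeal ↔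
    algebraMap (𝓞 L) (𝓞 M) ((RingOfIntegers.mapRingEquiv g.toRingEquiv).symm x) ∈ w.asIdeal
  rw [mem_act]
  have h1 : (RingOfIntegers.mapRingEquiv g1.toRingEquiv).symm (algebraMap (𝓞 L) (𝓞 M) x) =
      algebraMap (𝓞 L) (𝓞 M) ((RingOfIntegers.mapRingEquiv g.toRingEquiv).symm x) := by
    apply RingOfIntegers.ext
    change g1.symm (algebraMap L M (x : L)) = algebraMap L M (g.symm (x : L))
    apply g1.injective
    rw [h, AlgEquiv.apply_symm_apply, AlgEquiv.apply_symm_apply]
  rw [h1]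

theorem ram_top {N : ℕ} (hR : Ram K M N) : Ram L M N := by
  intro u hu
  rw [← mem_under (F := K)]
  apply hR
  intro h
  exact hu (Pool.Agent.Q225.AR.fr3 K L M u h)

end tower

section conj
variable {F E M : Type} [Field F] [NumberField F] [Field E] [NumberField E] [Field M]
  [NumberField M] [Algebra F E] [Algebra E M] [Algebra F M] [IsScalarTower F E M] [IsGalois F E]

/-- conjugation as a homomorphism -/
noncomputable def cjHom (t : M ≃ₐ[F] M) : (M ≃ₐ[E] M) →* (M ≃ₐ[E] M) where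
  toFun h := cj t h
  map_one' := by
    ext x
    rw [cj_apply]
    change t (t⁻¹ x) = x
    rw [← AlgEquiv.mul_apply, mul_inv_cancel]
    rfl
  map_mul' a b := by
    ext x
    rw [AlgEquiv.mul_apply, cj_apply, cj_apply, cj_apply, ← AlgEquiv.mul_apply t⁻¹ t,
      inv_mul_cancel]
    rfl

theorem cjHom_apply (t : M ≃ₐ[F] M) (h : M ≃ₐ[E] M) (x : M) : cjHom t h x = t (h (t⁻¹ x)) := rfl

/-- the Artin character of the conjugate -/
theorem art_conj [IsGalois F M] [IsGalois E M] {N : ℕ} (hR : Ram E M N) (t : M ≃ₐ[F] M)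
    (s : E ≃ₐ[F] E) (hs : AlgEquiv.restrictNormal t E = s) (α : (M ≃ₐ[E] M) →* ℂˣ) {D : Dv E}
    (hD : D ∈ Pr E N) : art α (sD s D) = art (α.comp (cjHom t)) D := by
  classical
  have key : ∀ w : HeightOneSpectrum (𝓞 E), (N : 𝓞 E) ∉ w.asIdeal →
      art α (Finsupp.single (act s w) 1) = art (α.comp (cjHom t)) (Finsupp.single w 1) := by
    intro w hw
    have h1 : IsFrobenius (act s w) (cjHom t (frob M w)) := by
      rw [← hs]
      exact isFrobenius_conj_base t (fun x => rfl) (frob_spec w)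
    have h2 : Unramified M (act s w) := by
      by_contra h3
      have h4 := hR _ h3
      rw [mem_act, map_natCast] at h4
      exact hw h4
    rw [art_single, art_single, one_smul, one_smul, chi_frob h2 (frob_spec _) h1 α]
    rfl
  have h0 : sD s D = ∑ w ∈ D.support, D w • Finsupp.single (act s w) 1 := by
    conv_lhs => rw [← Finsupp.sum_single D]
    rw [Finsupp.sum, map_sum]
    refine Finset.sum_congr rfl fun w _ => ?_
    have h1 : sD s (Finsupp.single w (D w)) = Finsupp.single (act s w) (D w) :=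
      Finsupp.mapDomain_single
    rw [h1, Finsupp.smul_single, smul_eq_mul, mul_one]
  have h0' : D = ∑ w ∈ D.support, D w • Finsupp.single w 1 := by
    conv_lhs => rw [← Finsupp.sum_single D]
    rw [Finsupp.sum]
    refine Finset.sum_congr rfl fun w _ => ?_
    rw [Finsupp.smul_single, smul_eq_mul, mul_one]
  rw [h0]
  conv_rhs => rw [h0']
  rw [map_sum, map_sum]
  refine Finset.sum_congr rfl fun w hw => ?_
  rw [map_zsmul, map_zsmul, key w fun h => (Finsupp.mem_support_iff.1 hw) (hD w h)]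

end conj

end Pool.Agent.Q53.EX
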