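import Pool.Agent.Q53.EX.UnrD
import Pool.Agent.Q53.EX.Tw0

/-!
# Job EX-UNR: class group characters are unramified

The proof does not use `S_NRM` and `S_GOOD`.
-/

set_option autoImplicit false
set_option linter.unusedSectionVars false

namespace Pool.Agent.Q53.EX

open NumberField IsDedekindDomain Pool.Agent.Q5.BR Pool.Agent.Q92.AR Pool.Agent.Q20.EX
open Pool.Agent.Q125.AR (mem_under)

/-- the restriction of an inertia element is an inertia element -/
theorem inert_restrict {F E M : Type} [Field F] [NumberField F] [Field E] [NumberField E]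
    [Field M] [NumberField M] [Algebra F E] [Algebra E M] [Algebra F M] [IsScalarTower F E M]
    [Normal F E] {w : HeightOneSpectrum (𝓞 M)} {g : M ≃ₐ[F] M} (hg : Inert w g) :
    Inert (w.under (𝓞 E)) (AlgEquiv.restrictNormal g E) := by
  intro x
  have hx : IsIntegral ℤ (AlgEquiv.restrictNormal g E (x : E)) :=
    x.2.map (AlgEquiv.restrictNormal g E)
  obtain ⟨y, hy⟩ : ∃ y : 𝓞 E, (y : E) = AlgEquiv.restrictNormal g E (x : E) :=
    ⟨⟨_, hx⟩, rfl⟩
  rw [← hy]
  have h1 : (w.under (𝓞 E)).valuation E (((y - x : 𝓞 E) : E)) < 1 := by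
    refine ((w.under (𝓞 E)).valuation_lt_one_iff_mem (K := E) (y - x)).2 ?_
    change algebraMap (𝓞 E) (𝓞 M) (y - x) ∈ w.asIdeal
    rw [← w.valuation_lt_one_iff_mem (K := M)]
    have h2 := hg (algebraMap (𝓞 E) (𝓞 M) x)
    have e1 : ((algebraMap (𝓞 E) (𝓞 M) x : 𝓞 M) : M) = algebraMap E M (x : E) := rfl
    have e2 : (((algebraMap (𝓞 E) (𝓞 M) (y - x) : 𝓞 M)) : M) =
        g (algebraMap E M (x : E)) - algebraMap E M (x : E) := by
      have e3 : (((algebraMap (𝓞 E) (𝓞 M) (y - x) : 𝓞 M)) : M) =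
          algebraMap E M ((y : E) - (x : E)) := rfl
      rw [e3, map_sub, hy, AlgEquiv.restrictNormal_commutes]
    rw [e1] at h2
    change w.valuation M (((algebraMap (𝓞 E) (𝓞 M) (y - x) : 𝓞 M)) : M) < 1
    rw [e2]
    exact h2
  exact h1

/-- **Class group characters are unramified**, from `S_NCG` alone. -/
theorem unr0 (hNCG : S_NCG) (F M : Type) [Field F] [NumberField F] [Field M] [NumberField M]
    [Algebra F M] [IsGalois F M] (ψ : (M ≃ₐ[F] M) →* ℂˣ) (N : ℕ) (hN : N ≠ 0)
    (hRam : Ram F M N) (hψ : TrivAt Set.univ N (art ψ)) (w : HeightOneSpectrum (𝓞 M))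
    (g : M ≃ₐ[F] M) (hg : Inert w g) : ψ g = 1 := by
  classical
  let H : Subgroup (M ≃ₐ[F] M) := ψ.ker
  let E : IntermediateField F M := IntermediateField.fixedField H
  have hfix : E.fixingSubgroup = H := IntermediateField.fixingSubgroup_fixedField H
  have hGal : IsGalois F E := IsGalois.of_fixedField_normal_subgroup H
  let res : (M ≃ₐ[F] M) →* (E ≃ₐ[F] E) := AlgEquiv.restrictNormalHom E
  have hres : Function.Surjective res := AlgEquiv.restrictNormalHom_surjective M
  have hker : res.ker = ψ.ker := by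
    change res.ker = H
    rw [← hfix]
    exact IntermediateField.restrictNormalHom_ker E
  have hle : res.ker ≤ ψ.ker := hker.le
  let ψ' : (E ≃ₐ[F] E) →* ℂˣ := (MonoidHom.liftOfSurjective res hres) ⟨ψ, hle⟩
  have hψ' : ∀ g, ψ' (res g) = ψ g := fun g =>
    MonoidHom.liftOfRightInverse_comp_apply res _ _ ⟨ψ, hle⟩ g
  have hinj : Function.Injective ψ' := by
    rw [injective_iff_map_eq_one]
    intro g hg
    obtain ⟨g, rfl⟩ := hres g
    rw [hψ'] at hg
    have h : g ∈ res.ker := by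
      rw [hker]
      exact hg
    exact h
  obtain ⟨c, hc, hcψ⟩ := hNCG F N (art ψ) hN hψ
  have hRE : Ram F E N := fun v hv => hRam v fun h => hv h.sub
  have hcψ' : ∀ D ∈ Pr F N, c D = art ψ' D := by
    intro D hD
    rw [hcψ D hD]
    exact art_infl Pool.Agent.Q225.AR.fr F E M hRam ψ' ψ (fun g => (hψ' g).symm) hD
  have hu : Unramified E ((w.under (𝓞 E)).under (𝓞 F)) :=
    Unr.cyclic hinj hN hRE hc hcψ' _
  have h1 : AlgEquiv.restrictNormal g E = 1 := inert_eq_one hu (inert_restrict hg)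
  rw [← hψ' g]
  change ψ' (AlgEquiv.restrictNormal g E) = 1
  rw [h1, map_one]

/-- **JOB UNR.** -/
theorem unr : S_UNR := fun _ hNCG _ F M _ _ _ _ _ _ ψ N hN hRam hψ w g hg =>
  unr0 hNCG F M ψ N hN hRam hψ w g hg

end Pool.Agent.Q53.EX
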