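import Pool.Agent.Q20.EX.Stm
import Pool.Agent.Q125.AR.Final
import Pool.Agent.Q149.AR.SD2
import Pool.Agent.Q106.AR.NmA

/-!
# Project EX, job DESC: descent of the existence theorem in a cyclic extension
-/

set_option autoImplicit false
set_option linter.unusedSectionVars false
set_option linter.deprecated false

namespace Pool.Agent.Q53.EX

open NumberField IsDedekindDomain Pool.Agent.Q5.BR Pool.Agent.Q92.AR Pool.Agent.Q20.EX
open Pool.Agent.TeamU (act act_one act_mul mem_act)
open Pool.Agent.Q125.AR (Ray_mono Ram_mono art_eq_sum chi_frob mem_under finite_dvd)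

theorem Pr_mono {F : Type} [Field F] [NumberField F] {N N' : ℕ} (h : N' ∣ N) {D : Dv F}
    (hD : D ∈ Pr F N) : D ∈ Pr F N' := by
  intro v hv
  apply hD
  obtain ⟨k, rfl⟩ := h
  rw [Nat.cast_mul]
  exact v.asIdeal.mul_mem_right _ hv

/-- the Artin character of the inflation of a character -/
theorem art_infl (hFR : S_FR) (F E M : Type) [Field F] [NumberField F] [Field E] [NumberField E]
    [Field M] [NumberField M] [Algebra F E] [Algebra E M] [Algebra F M] [IsScalarTower F E M]
    [IsGalois F E] [IsGalois F M] {N : ℕ} (hR : Ram F M N) (ψ : (E ≃ₐ[F] E) →* ℂˣ)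
    (ψ' : (M ≃ₐ[F] M) →* ℂˣ) (h : ∀ g : M ≃ₐ[F] M, ψ' g = ψ (AlgEquiv.restrictNormal g E))
    {D : Dv F} (hD : D ∈ Pr F N) : art ψ' D = art ψ D := by
  rw [art_eq_sum, art_eq_sum]
  refine Finset.sum_congr rfl fun v hv => ?_
  have hN : (N : 𝓞 F) ∉ v.asIdeal := fun h => (Finsupp.mem_support_iff.1 hv) (hD v h)
  have hu : Unramified M v := by
    by_contra h
    exact hN (hR v h)
  have huE : Unramified E v := hu.sub
  have h2 : IsFrobenius v (AlgEquiv.restrictNormal (frob M v) E) :=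
    hFR.1 F E M v (frob M v) (frob_spec v)
  rw [h, chi_frob huE (frob_spec (M := E) v) h2 ψ]

/-- a Galois extension containing `M` -/
theorem exists_gal (F M : Type) [Field F] [NumberField F] [Field M] [NumberField M]
    [Algebra F M] : ∃ (M1 : Type) (_ : Field M1) (_ : NumberField M1) (_ : Algebra F M1)
    (_ : Algebra M M1) (_ : IsScalarTower F M M1), IsGalois F M1 := by
  let Ω := AlgebraicClosure M
  let M1 : IntermediateField F Ω := IntermediateField.normalClosure F M Ω
  have hN : NumberField M1 := by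
    have h1 : FiniteDimensional F M1 := inferInstance
    have h2 : FiniteDimensional ℚ M1 := FiniteDimensional.trans ℚ F M1
    have h3 : CharZero M1 := inferInstance
    exact ⟨⟩
  have hG : IsGalois F M1 := by
    have h1 : Algebra.IsSeparable F M1 := inferInstance
    have h2 : Normal F Ω := by
      have h3 : IsAlgClosure F Ω := by
        have h4 : Algebra.IsAlgebraic F Ω := Algebra.IsAlgebraic.trans F M Ω
        exact ⟨inferInstance, h4⟩
      exact IsAlgClosure.normal F Ω
    have h3 : Normal F M1 := inferInstance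
    exact ⟨⟩
  exact ⟨M1, inferInstance, hN, inferInstance, inferInstance, inferInstance, hG⟩

theorem finite_chars (G : Type) [Group G] [Finite G] : Finite (G →* ℂˣ) := by
  have hn : Nat.card G ≠ 0 := Nat.card_pos.ne'
  have : NeZero (Nat.card G) := ⟨hn⟩
  let f : (G →* ℂˣ) → (G → rootsOfUnity (Nat.card G) ℂ) := fun ψ g => ⟨ψ g, by
    rw [mem_rootsOfUnity, ← map_pow, pow_card_eq_one', map_one]⟩
  refine Finite.of_injective f fun ψ ψ' h => ?_
  ext g
  have h1 := congrFun h g
  have h2 : ψ g = ψ' g := congrArg Subtype.val h1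
  rw [h2]

/-- one modulus for all characters -/
theorem recip_all (hAR : S_AR) (F M : Type) [Field F] [NumberField F] [Field M] [NumberField M]
    [Algebra F M] [IsGalois F M] : ∃ N : ℕ, N ≠ 0 ∧ ∀ ψ : (M ≃ₐ[F] M) →* ℂˣ,
    ∀ x ∈ Ray F N, art ψ (prin x) = 0 := by
  classical
  have hfin : Finite ((M ≃ₐ[F] M) →* ℂˣ) := finite_chars _
  have : Fintype ((M ≃ₐ[F] M) →* ℂˣ) := Fintype.ofFinite _
  choose Nf h1 h2 h3 using hAR F M
  refine ⟨∏ ψ : (M ≃ₐ[F] M) →* ℂˣ, Nf ψ, Finset.prod_ne_zero_iff.2 fun ψ _ => h1 ψ,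
    fun ψ x hx => h3 ψ x (Ray_mono (Finset.dvd_prod_of_mem Nf (Finset.mem_univ ψ)) hx)⟩

section conj
variable {F E M : Type} [Field F] [NumberField F] [Field E] [NumberField E] [Field M]
  [NumberField M] [Algebra F E] [Algebra E M] [Algebra F M] [IsScalarTower F E M] [IsGalois F E]

/-- the conjugate of a Frobenius element -/
theorem isFrobenius_conj_base [IsGalois F M] {v : HeightOneSpectrum (𝓞 E)} {h h' : M ≃ₐ[E] M} (g : M ≃ₐ[F] M)
    (hh : ∀ x, h' x = g (h (g⁻¹ x))) (hv : IsFrobenius v h) :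
    IsFrobenius (act (AlgEquiv.restrictNormal g E) v) h' := by
  obtain ⟨w, hwm, hwv, hw⟩ := hv
  have hcoe : ∀ (a : M ≃ₐ[F] M) (x : 𝓞 M), ((RingOfIntegers.mapRingEquiv a.toRingEquiv x : 𝓞 M) : M) =
      a (x : M) := fun a x => rfl
  have hcoes : ∀ (a : M ≃ₐ[F] M) (x : 𝓞 M),
      (((RingOfIntegers.mapRingEquiv a.toRingEquiv).symm x : 𝓞 M) : M) = a⁻¹ (x : M) :=
    fun a x => rfl
  have hcoeE : ∀ (a : E ≃ₐ[F] E) (x : 𝓞 E),
      (((RingOfIntegers.mapRingEquiv a.toRingEquiv).symm x : 𝓞 E) : E) = a⁻¹ (x : E) :=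
    fun a x => rfl
  refine ⟨w.comap ((RingOfIntegers.mapRingEquiv g.toRingEquiv).symm : 𝓞 M →+* 𝓞 M), ?_, ?_, ?_⟩
  · exact Ideal.comap_isMaximal_of_equiv (RingOfIntegers.mapRingEquiv g.toRingEquiv).symm
  · ext x
    rw [mem_act, ← hwv, Ideal.mem_comap, Ideal.mem_comap, Ideal.mem_comap]
    have h1 : (RingOfIntegers.mapRingEquiv g.toRingEquiv).symm (algebraMap (𝓞 E) (𝓞 M) x) =
        algebraMap (𝓞 E) (𝓞 M)
          ((RingOfIntegers.mapRingEquiv (AlgEquiv.restrictNormal g E).toRingEquiv).symm x) := by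
      apply RingOfIntegers.ext
      rw [hcoes]
      change g⁻¹ (algebraMap E M (x : E)) = algebraMap E M
        ((((RingOfIntegers.mapRingEquiv (AlgEquiv.restrictNormal g E).toRingEquiv).symm x : 𝓞 E) : E))
      rw [hcoeE]
      apply g.injective
      rw [← AlgEquiv.restrictNormal_commutes g E ((AlgEquiv.restrictNormal g E)⁻¹ (x : E)),
        ← AlgEquiv.mul_apply g g⁻¹, ← AlgEquiv.mul_apply (AlgEquiv.restrictNormal g E),
        mul_inv_cancel, mul_inv_cancel]
      rfl
    change ((RingOfIntegers.mapRingEquiv g.toRingEquiv).symm (algebraMap (𝓞 E) (𝓞 M) x)) ∈ w ↔ _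
    rw [h1]
  · intro x
    obtain ⟨y, hy, hyx⟩ := hw ((RingOfIntegers.mapRingEquiv g.toRingEquiv).symm x)
    refine ⟨RingOfIntegers.mapRingEquiv g.toRingEquiv y, ?_, ?_⟩
    · rw [Ideal.mem_comap]
      change (RingOfIntegers.mapRingEquiv g.toRingEquiv).symm
        (RingOfIntegers.mapRingEquiv g.toRingEquiv y) ∈ w
      rw [RingEquiv.symm_apply_apply]
      exact hy
    · rw [hcoe, hyx, hcoes, Pool.Agent.Q149.AR.absNorm_act, map_sub, map_pow, hh]
      congr 2
      rw [← AlgEquiv.mul_apply, mul_inv_cancel]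
      rfl

end conj

end Pool.Agent.Q53.EX
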