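import Pool.Agent.Q20.EX.Stm
import Pool.Agent.Q125.AR.Final

/-!
# Project EX, job EXI: the existence theorem by induction on the degree of `F(ζ_n)`
-/

set_option autoImplicit false
set_option linter.unusedSectionVars false
set_option linter.deprecated false

namespace Pool.Agent.Q53.EX

open NumberField IsDedekindDomain Pool.Agent.Q5.BR Pool.Agent.Q92.AR Pool.Agent.Q20.EX

/-- a cyclic extension in an abelian extension of degree greater than one -/
theorem exists_cyclic (F C : Type) [Field F] [NumberField F] [Field C] [NumberField C]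
    [Algebra F C] [IsGalois F C] (hab : ∀ g h : C ≃ₐ[F] C, g * h = h * g)
    (h1 : Module.finrank F C ≠ 1) :
    ∃ E : IntermediateField F C, IsGalois F E ∧ Module.finrank E C < Module.finrank F C ∧
      ∃ σ : E ≃ₐ[F] E, ∀ g : E ≃ₐ[F] E, g ∈ Subgroup.zpowers σ := by
  have hcard : Nat.card (C ≃ₐ[F] C) = Module.finrank F C := IsGalois.card_aut_eq_finrank F C
  rcases IsCoatomic.eq_top_or_exists_le_coatom (⊥ : Subgroup (C ≃ₐ[F] C)) with h | ⟨H, hH, -⟩
  · exfalso
    apply h1
    rw [← hcard]
    have h2 : Nat.card (⊥ : Subgroup (C ≃ₐ[F] C)) = Nat.card (⊤ : Subgroup (C ≃ₐ[F] C)) := by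
      rw [h]
    rw [Subgroup.card_bot, Subgroup.card_top] at h2
    exact h2.symm
  · have hN : H.Normal := ⟨fun x hx g => by
      rw [hab g x, mul_inv_cancel_right]
      exact hx⟩
    let E : IntermediateField F C := IntermediateField.fixedField H
    have hfix : E.fixingSubgroup = H := IntermediateField.fixingSubgroup_fixedField H
    have hGal : IsGalois F E := IsGalois.of_fixedField_normal_subgroup H
    refine ⟨E, hGal, ?_, ?_⟩
    · have h2 : Module.finrank E C = Nat.card H := IntermediateField.finrank_fixedField_eq_card H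
      rw [h2, ← hcard]
      refine lt_of_le_of_ne (Nat.card_le_card_of_injective _ Subtype.val_injective) fun h3 => ?_
      exact hH.1 (Subgroup.eq_top_of_card_eq H h3)
    · obtain ⟨g, hg⟩ : ∃ g : C ≃ₐ[F] C, g ∉ H := by
        by_contra h3
        push Not at h3
        exact hH.1 ((Subgroup.eq_top_iff' H).2 h3)
      have htop : H ⊔ Subgroup.zpowers g = ⊤ := by
        apply hH.2
        refine lt_of_le_of_ne le_sup_left fun h3 => hg ?_
        rw [h3]
        exact (le_sup_right : Subgroup.zpowers g ≤ H ⊔ Subgroup.zpowers g)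
          (Subgroup.mem_zpowers g)
      let res : (C ≃ₐ[F] C) →* (E ≃ₐ[F] E) := AlgEquiv.restrictNormalHom E
      have hres : Function.Surjective res := AlgEquiv.restrictNormalHom_surjective C
      have hker : res.ker = H := by
        rw [← hfix]
        exact IntermediateField.restrictNormalHom_ker E
      refine ⟨res g, fun τ => ?_⟩
      obtain ⟨τ, rfl⟩ := hres τ
      have h3 : τ ∈ H ⊔ Subgroup.zpowers g := by
        rw [htop]
        exact Subgroup.mem_top τ
      obtain ⟨x, hx, y, ⟨k, rfl⟩, rfl⟩ := Subgroup.mem_sup_of_normal_left.1 h3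
      refine ⟨k, ?_⟩
      have h4 : res x = 1 := by
        rw [← MonoidHom.mem_ker, hker]
        exact hx
      have h5 : res (x * g ^ k) = res g ^ k := by
        rw [map_mul, h4, one_mul, map_zpow]
      exact h5.symm

/-- cyclotomic over an intermediate field -/
theorem cyc_tower (F E C : Type) [Field F] [Field E] [Field C] [Algebra F E] [Algebra E C]
    [Algebra F C] [IsScalarTower F E C] (n : ℕ) [NeZero n] [h : IsCyclotomicExtension {n} F C] :
    IsCyclotomicExtension {n} E C := by
  rw [IsCyclotomicExtension.iff_singleton] at h ⊢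
  refine ⟨h.1, fun x => ?_⟩
  refine Algebra.adjoin_induction ?_ ?_ ?_ ?_ (h.2 x)
  · exact fun y hy => Algebra.subset_adjoin hy
  · intro r
    rw [IsScalarTower.algebraMap_apply F E C]
    exact Subalgebra.algebraMap_mem _ _
  · exact fun a b _ _ ha hb => add_mem ha hb
  · exact fun a b _ _ ha hb => mul_mem ha hb

/-- a character killing the ray has finite order on the divisors prime to `N` -/
theorem finite_order (hFin : S_Fin) {F : Type} [Field F] [NumberField F] {N : ℕ} (hN : N ≠ 0)
    {χ : Dv F →+ Additive ℂˣ} (hχ : ∀ x ∈ Ray F N, χ (prin x) = 0) :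
    ∃ n : ℕ, 2 < n ∧ ∀ D ∈ Pr F N, n • χ D = 0 := by
  have h1 := hFin F N hN
  have hker : RayD F N ≤ χ.ker := by
    unfold RayD
    rw [AddSubgroup.closure_le]
    rintro _ ⟨x, hx, rfl⟩
    exact hχ x hx
  refine ⟨3 * (RayD F N).relIndex (Pr F N), by omega, fun D hD => ?_⟩
  have h2 : ((RayD F N).addSubgroupOf (Pr F N)).index • (⟨D, hD⟩ : Pr F N) ∈
      (RayD F N).addSubgroupOf (Pr F N) := AddSubgroup.nsmul_index_mem _ _
  have h3 : (RayD F N).relIndex (Pr F N) • D ∈ RayD F N := AddSubgroup.mem_addSubgroupOf.1 h2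
  have h4 : χ ((RayD F N).relIndex (Pr F N) • D) = 0 := hker h3
  rw [mul_smul, ← map_nsmul, h4, smul_zero]

theorem exi_of (hFin : S_Fin) (hNm : S_Nm) : S_EXI := by
  intro hK hCF hD
  -- the induction
  have key : ∀ (d : ℕ) (F C : Type) [Field F] [NumberField F] [Field C] [NumberField C]
      [Algebra F C] (n N : ℕ) [NeZero n] [IsCyclotomicExtension {n} F C]
      (χ : Dv F →+ Additive ℂˣ), Module.finrank F C = d → 2 < n → N ≠ 0 →
      (∀ D ∈ Pr F N, n • χ D = 0) → (∀ x ∈ Ray F N, χ (prin x) = 0) → IsArt N χ := by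
    intro d
    induction d using Nat.strong_induction_on with
    | _ d ih =>
    intro F C _ _ _ _ _ n N _ hcyc χ hd hn hN h1 h2
    have hGal : IsGalois F C := IsCyclotomicExtension.isGalois {n} F C
    have hmc : IsMulCommutative (C ≃ₐ[F] C) := IsCyclotomicExtension.isMulCommutative {n} F C
    have hab : ∀ g h : C ≃ₐ[F] C, g * h = h * g := fun g h => hmc.is_comm.comm g h
    by_cases hd1 : Module.finrank F C = 1
    · obtain ⟨ζ, hζ⟩ := IsCyclotomicExtension.exists_isPrimitiveRoot F C
        (Set.mem_singleton n) (NeZero.ne n)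
      have hsurj : Function.Surjective (algebraMap F C) := by
        have h3 : (⊥ : Subalgebra F C) = ⊤ := Subalgebra.bot_eq_top_of_finrank_eq_one hd1
        intro x
        have h4 : x ∈ (⊥ : Subalgebra F C) := by
          rw [h3]
          trivial
        exact Algebra.mem_bot.1 h4
      obtain ⟨z, rfl⟩ := hsurj ζ
      have hz : IsPrimitiveRoot z n := hζ.of_map_of_injective (algebraMap F C).injective
      exact hK F n N z χ hn hz hN h1 h2
    · obtain ⟨E, hE, hlt, σ, hσ⟩ := exists_cyclic F C hab hd1
      have hcycE : IsCyclotomicExtension {n} E C := cyc_tower F E C n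
      obtain ⟨-, -, g3, g4, -⟩ := hNm F E
      have g1 := (hNm F E).1
      have h3 : ∀ x ∈ Ray E N, (χ.comp (nmD F E)) (prin x) = 0 := by
        intro x hx
        rw [AddMonoidHom.comp_apply, g1 x]
        exact h2 _ (g3 N hN x hx)
      have h4 : ∀ D ∈ Pr E N, n • (χ.comp (nmD F E)) D = 0 := by
        intro D hD
        rw [AddMonoidHom.comp_apply]
        exact h1 _ (g4 N D hD)
      obtain ⟨M, i1, i2, i3, i4, ψ, N', hN', -, -, hψ⟩ :=
        ih (Module.finrank E C) (by rw [← hd]; exact hlt) E C n N (χ.comp (nmD F E)) rfl hn hN h4 h3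
      exact hD hCF F E M σ hσ N N' χ ψ hN hN' h2 hψ
  intro F _ _ N χ hN hχ
  obtain ⟨n, hn, h1⟩ := finite_order hFin hN hχ
  have : NeZero n := ⟨by omega⟩
  exact key _ F (CyclotomicField n F) n N χ rfl hn hN h1 hχ

end Pool.Agent.Q53.EX
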