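import Pool.Agent.Q53.EX.Exk0

/-!
# Project EX, job EXK: the main argument
-/

set_option autoImplicit false
set_option maxHeartbeats 400000
set_option linter.unusedSectionVars false
set_option linter.deprecated false

namespace Pool.Agent.Q53.EX

open NumberField IsDedekindDomain Pool.Agent.Q5.BR Pool.Agent.Q92.AR Pool.Agent.Q20.EX
open Pool.Agent.Q125.AR (Ray_mono Ram_mono art_eq_sum chi_frob mem_under finite_dvd valuation_eq_exp
  prin_eq_zero_of_valuation)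

section
variable {F : Type} [Field F] [NumberField F]

open scoped Classical in
/-- the part of a divisor outside the primes dividing `N1` -/
noncomputable def cut (N1 : ℕ) : Dv F →+ Dv F :=
  Finsupp.filterAddHom (fun v => v ∉ primesOf F N1)

theorem cut_apply (N1 : ℕ) (D : Dv F) (v : HeightOneSpectrum (𝓞 F)) :
    (v ∈ primesOf F N1 → cut N1 D v = 0) ∧ (v ∉ primesOf F N1 → cut N1 D v = D v) := by
  classical
  constructor
  · intro h
    exact Finsupp.filter_apply_neg (fun v => v ∉ primesOf F N1) D (by simpa using h)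
  · intro h
    exact Finsupp.filter_apply_pos (fun v => v ∉ primesOf F N1) D h

theorem cut_eq {N1 : ℕ} {D D' : Dv F} (h : ∀ v, v ∉ primesOf F N1 → D v = D' v)
    (h0 : ∀ v, v ∈ primesOf F N1 → D' v = 0) : cut N1 D = D' := by
  ext v
  by_cases hv : v ∈ primesOf F N1
  · rw [(cut_apply N1 D v).1 hv, h0 v hv]
  · rw [(cut_apply N1 D v).2 hv, h v hv]

/-- the relations -/
noncomputable def A0 (F : Type) [Field F] [NumberField F] (n N1 N : ℕ) : AddSubgroup (Dv F) :=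
  AddSubgroup.closure (prin '' {x : Fˣ | Un N x ∧ Pos (x : F) ∧
    CongAt (primesOf F N1) N (x : F)}) ⊔ (Pr F N).map (nsmulAddMonoidHom n)

theorem A0_le_ker {n N1 N : ℕ} {χ : Dv F →+ Additive ℂˣ}
    (h1 : ∀ x : Fˣ, Un N x → Pos (x : F) → CongAt (primesOf F N1) N (x : F) → χ (prin x) = 0)
    (h2 : ∀ D ∈ Pr F N, n • χ D = 0) : A0 F n N1 N ≤ χ.ker := by
  unfold A0
  rw [sup_le_iff, AddSubgroup.closure_le]
  constructor
  · rintro _ ⟨x, ⟨hx1, hx2, hx3⟩, rfl⟩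
    exact h1 x hx1 hx2 hx3
  · rintro _ ⟨D, hD, rfl⟩
    change χ (n • D) = 0
    rw [map_nsmul]
    exact h2 D hD

/-- the quotient -/
def CC (F : Type) [Field F] [NumberField F] (n N1 N : ℕ) : Type :=
  (Pr F N) ⧸ ((A0 F n N1 N).addSubgroupOf (Pr F N))

noncomputable instance (n N1 N : ℕ) : AddCommGroup (CC F n N1 N) :=
  inferInstanceAs (AddCommGroup ((Pr F N) ⧸ ((A0 F n N1 N).addSubgroupOf (Pr F N))))

/-- the projection -/
noncomputable def mkC (F : Type) [Field F] [NumberField F] (n N1 N : ℕ) : Pr F N →+ CC F n N1 N :=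
  QuotientAddGroup.mk' ((A0 F n N1 N).addSubgroupOf (Pr F N))

theorem mkC_surj (n N1 N : ℕ) : Function.Surjective (mkC F n N1 N) :=
  QuotientAddGroup.mk'_surjective ((A0 F n N1 N).addSubgroupOf (Pr F N))

theorem mkC_eq_zero {n N1 N : ℕ} {D : Pr F N} (h : (D : Dv F) ∈ A0 F n N1 N) :
    mkC F n N1 N D = 0 :=
  (QuotientAddGroup.eq_zero_iff (N := (A0 F n N1 N).addSubgroupOf (Pr F N)) D).2 h

/-- the character of the quotient -/
noncomputable def toC {n N1 N : ℕ} (χ : Dv F →+ Additive ℂˣ) (h : A0 F n N1 N ≤ χ.ker) :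
    CC F n N1 N →+ Additive ℂˣ :=
  QuotientAddGroup.lift ((A0 F n N1 N).addSubgroupOf (Pr F N)) (χ.comp (Pr F N).subtype)
    (fun D hD => h hD)

theorem toC_mk {n N1 N : ℕ} (χ : Dv F →+ Additive ℂˣ) (h : A0 F n N1 N ≤ χ.ker) (D : Pr F N) :
    toC χ h (mkC F n N1 N D) = χ D := rfl

theorem cut_mem {N1 N : ℕ} {x : Fˣ} (hx : x ∈ UX F N1 N) : cut N1 (prin x) ∈ Pr F N := by
  intro v hv
  by_cases h1 : v ∈ primesOf F N1
  · exact (cut_apply N1 _ v).1 h1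
  · rw [(cut_apply N1 _ v).2 h1]
    exact val_eq_one_iff.1 (hx v hv h1)

/-- the divisor of an element of `UX` without its part at `N1` -/
noncomputable def cutU (F : Type) [Field F] [NumberField F] (N1 N : ℕ) :
    Additive (UX F N1 N) →+ Pr F N :=
  AddMonoidHom.mk' (fun x => ⟨cut N1 (prin x.toMul.1), cut_mem x.toMul.2⟩) (by
    intro x y
    apply Subtype.ext
    change cut N1 (prin (x.toMul.1 * y.toMul.1)) = cut N1 (prin x.toMul.1) + cut N1 (prin y.toMul.1)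
    rw [prin_mul, map_add])

theorem cutU_coe {N1 N : ℕ} (x : Additive (UX F N1 N)) :
    (cutU F N1 N x : Dv F) = cut N1 (prin x.toMul.1) := rfl

/-- the map from `UX` -/
noncomputable def pU (F : Type) [Field F] [NumberField F] (n N1 N : ℕ) :
    Additive (UX F N1 N) →+ CC F n N1 N := (mkC F n N1 N).comp (cutU F N1 N)

theorem pU_surj {n N1 N : ℕ} (hd : N1 ∣ N)
    (hcl : ∀ D : Dv F, ∃ x : Fˣ, D - prin x ∈ SupF F (primesOf F N1)) :
    Function.Surjective (pU F n N1 N) := by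
  intro c
  obtain ⟨D, hD⟩ := mkC_surj n N1 N c
  obtain ⟨x, hx⟩ := hcl D.1
  have hx1 : ∀ v : HeightOneSpectrum (𝓞 F), v ∉ primesOf F N1 → prin x v = D.1 v := by
    intro v hv
    have h1 := hx v hv
    rw [Finsupp.sub_apply] at h1
    omega
  have hxU : x ∈ UX F N1 N := by
    intro v hv hv1
    rw [val_eq_one_iff, hx1 v hv1]
    exact D.2 v hv
  refine ⟨Additive.ofMul ⟨x, hxU⟩, ?_⟩
  have h2 : cutU F N1 N (Additive.ofMul ⟨x, hxU⟩) = D := by
    apply Subtype.ext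
    rw [cutU_coe]
    exact cut_eq hx1 fun v hv => D.2 v (cast_mem_of_dvd hd hv)
  change mkC F n N1 N (cutU F N1 N (Additive.ofMul ⟨x, hxU⟩)) = c
  rw [h2, hD]

theorem pU_ker {n N1 N : ℕ} (hpos : ∀ φ : F →+* ℝ, False) :
    Subgroup.toAddSubgroup ((PX F n N1 N ⊔ SU F N1).subgroupOf (UX F N1 N)) ≤
      (pU F n N1 N).ker := by
  have key : ∀ x : Additive (UX F N1 N), cut N1 (prin x.toMul.1) ∈ A0 F n N1 N →
      x ∈ (pU F n N1 N).ker := fun x h => mkC_eq_zero h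
  intro x hx
  have hx' : x.toMul.1 ∈ PX F n N1 N ⊔ SU F N1 := hx
  apply key x
  obtain ⟨a, ⟨y, hy, z, hz, hz1, hz2, rfl⟩, b, hb, hab⟩ := Subgroup.mem_sup.1 hx'
  rw [← hab, prin_mul, prin_mul, prin_pow, map_add, map_add, map_nsmul]
  have h1 : cut N1 (prin b) = 0 := cut_eq (fun v hv => hb v hv) fun v _ => rfl
  have h2 : cut N1 (prin z) = prin z := cut_eq (fun v _ => rfl) fun v hv => val_eq_one_iff.1 (hz2 v hv)
  rw [h1, h2, add_zero]
  unfold A0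
  refine AddSubgroup.add_mem _ ?_ ?_
  · exact AddSubgroup.mem_sup_right ⟨cut N1 (prin y), cut_mem hy, rfl⟩
  · refine AddSubgroup.mem_sup_left (AddSubgroup.subset_closure ⟨z, ⟨fun v hv => ?_,
      fun φ => (hpos φ).elim, hz1⟩, rfl⟩)
    by_cases h3 : v ∈ primesOf F N1
    · exact hz2 v h3
    · exact hz v hv h3

/-- the characters kill the relations -/
theorem A0_le_chi {n N N1 N3 : ℕ} {χ : Dv F →+ Additive ℂˣ} (d1 : N ∣ N1) (d7 : N ∣ N3)
    (hχn : ∀ D ∈ Pr F N, n • χ D = 0) (hχ : ∀ x ∈ Ray F N, χ (prin x) = 0) :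
    A0 F n N1 N3 ≤ χ.ker := by
  refine A0_le_ker (fun x _ hx2 hx3 => hχ x ⟨fun v hv => ?_, hx2⟩) fun D hD =>
    hχn D (Pr_mono d7 hD)
  have hv1 : v ∈ primesOf F N1 := cast_mem_of_dvd d1 hv
  refine (hx3 v hv1 (cast_mem_of_dvd d7 hv)).trans ?_
  obtain ⟨j, hj⟩ := d7
  rw [hj, Nat.cast_mul, map_mul]
  have h2 : v.valuation F (j : F) ≤ 1 := by
    have h3 := v.valuation_le_one (K := F) (j : 𝓞 F)
    simpa using h3
  exact mul_le_of_le_one_right' h2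

theorem art_pow_zero {M : Type} [Field M] [NumberField M] [Algebra F M] {n : ℕ}
    (ψ : (M ≃ₐ[F] M) →* ℂˣ) (h : ∀ g, ψ g ^ n = 1) (D : Dv F) : n • art ψ D = 0 := by
  rw [art_eq_sum, ← Finset.sum_nsmul]
  refine Finset.sum_eq_zero fun v _ => ?_
  have h1 : n • Additive.ofMul (ψ (frob M v)) = 0 := by
    rw [← ofMul_pow, h]
    rfl
  have h2 := map_nsmul (zsmulAddGroupHom (α := Additive ℂˣ) (D v)) n (Additive.ofMul (ψ (frob M v)))
  rw [h1, map_zero] at h2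
  exact h2.symm

theorem art_mul {M : Type} [Field M] [NumberField M] [Algebra F M]
    (ψ ψ' : (M ≃ₐ[F] M) →* ℂˣ) (D : Dv F) : art (ψ * ψ') D = art ψ D + art ψ' D := by
  rw [art_eq_sum, art_eq_sum, art_eq_sum, ← Finset.sum_add_distrib]
  refine Finset.sum_congr rfl fun v _ => ?_
  rw [← zsmul_add]
  rfl

/-- the order of the quotient -/
theorem card_CC {n N1 N3 s : ℕ} (hpos : ∀ φ : F →+* ℝ, False) (d5 : N1 ∣ N3)
    (hcl : ∀ D : Dv F, ∃ x : Fˣ, D - prin x ∈ SupF F (primesOf F N1))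
    (hb1 : (PX F n N1 N3 ⊔ SU F N1).relIndex (UX F N1 N3) ≠ 0)
    (hb2 : (PX F n N1 N3 ⊔ SU F N1).relIndex (UX F N1 N3) ≤ s) :
    Nat.card (CC F n N1 N3) ≠ 0 ∧ Nat.card (CC F n N1 N3) ≤ s := by
  have hsurj := pU_surj (F := F) (n := n) d5 hcl
  have hC1 : (pU F n N1 N3).ker.index = Nat.card (CC F n N1 N3) := by
    rw [AddSubgroup.index_ker, AddMonoidHom.range_eq_top.2 hsurj, AddSubgroup.card_top]
  have hdvd : (pU F n N1 N3).ker.index ∣ (PX F n N1 N3 ⊔ SU F N1).relIndex (UX F N1 N3) := by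
    have h1 := AddSubgroup.index_dvd_of_le (pU_ker (n := n) (N1 := N1) (N := N3) hpos)
    rwa [Subgroup.index_toAddSubgroup] at h1
  rw [hC1] at hdvd
  refine ⟨fun h => ?_, (Nat.le_of_dvd (Nat.pos_of_ne_zero hb1) hdvd).trans hb2⟩
  rw [h] at hdvd
  exact hb1 (Nat.eq_zero_of_zero_dvd hdvd)

/-- the map from the `S`-units to the characters of the quotient -/
noncomputable def theta {n N1 N3 : ℕ} {M : Type} [Field M] [NumberField M] [Algebra F M]
    (k : Fˣ → ((M ≃ₐ[F] M) →* ℂˣ)) (hkA : ∀ a : Fˣ, A0 F n N1 N3 ≤ (art (k a)).ker)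
    (hkm : ∀ x ∈ SU F N1, ∀ y ∈ SU F N1, k (x * y) = k x * k y) :
    Additive (SU F N1) →+ (CC F n N1 N3 →+ Additive ℂˣ) :=
  AddMonoidHom.mk' (fun a => toC (art (k a.toMul.1)) (hkA a.toMul.1)) (by
    intro a b
    refine AddMonoidHom.ext fun c => ?_
    obtain ⟨D, rfl⟩ := mkC_surj n N1 N3 c
    have h1 : k (((a + b).toMul : SU F N1) : Fˣ) = k a.toMul.1 * k b.toMul.1 :=
      hkm a.toMul.1 a.toMul.2 b.toMul.1 b.toMul.2
    rw [AddMonoidHom.add_apply, toC_mk, toC_mk, toC_mk, h1, art_mul])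

theorem theta_apply {n N1 N3 : ℕ} {M : Type} [Field M] [NumberField M] [Algebra F M]
    (k : Fˣ → ((M ≃ₐ[F] M) →* ℂˣ)) (hkA : ∀ a : Fˣ, A0 F n N1 N3 ≤ (art (k a)).ker)
    (hkm : ∀ x ∈ SU F N1, ∀ y ∈ SU F N1, k (x * y) = k x * k y) (a : Additive (SU F N1)) :
    theta k hkA hkm a = toC (art (k a.toMul.1)) (hkA a.toMul.1) := rfl

theorem theta_ker (hCheb : S_Cheb) {n N1 N3 : ℕ} {M : Type} [Field M] [NumberField M]
    [Algebra F M] [IsGalois F M] (hN30 : N3 ≠ 0)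
    (k : Fˣ → ((M ≃ₐ[F] M) →* ℂˣ)) (hkA : ∀ a : Fˣ, A0 F n N1 N3 ≤ (art (k a)).ker)
    (hkm : ∀ x ∈ SU F N1, ∀ y ∈ SU F N1, k (x * y) = k x * k y)
    (hk1 : ∀ x ∈ SU F N1, k x = 1 → ∃ y ∈ SU F N1, x = y ^ n) :
    (theta k hkA hkm).ker ≤ Subgroup.toAddSubgroup
      (((SU F N1).map (powMonoidHom n)).subgroupOf (SU F N1)) := by
  intro a ha
  rw [AddMonoidHom.mem_ker, theta_apply] at ha
  have h1 : ∀ D ∈ Pr F N3, art (k a.toMul.1) D = 0 := by
    intro D hD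
    have h2 := toC_mk (art (k a.toMul.1)) (hkA a.toMul.1) ⟨D, hD⟩
    rw [ha] at h2
    exact h2.symm
  have h2 : k a.toMul.1 = 1 := by
    refine MonoidHom.ext fun g => ?_
    obtain ⟨v, hvB, hvu, hvF⟩ := hCheb F M g {v | (N3 : 𝓞 F) ∈ v.asIdeal} (finite_dvd hN30)
    have h3 := h1 _ (single_mem_Pr hvB 1)
    rw [art_single, one_smul, chi_frob hvu (frob_spec v) hvF (k a.toMul.1)] at h3
    exact Additive.ofMul.injective h3
  obtain ⟨y, hy, hxy⟩ := hk1 a.toMul.1 a.toMul.2 h2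
  exact ⟨y, hy, hxy.symm⟩

/-- surjectivity by counting -/
theorem theta_surj (hCheb : S_Cheb) {n N1 N3 s : ℕ} {M : Type} [Field M] [NumberField M]
    [Algebra F M] [IsGalois F M] (hN30 : N3 ≠ 0)
    (k : Fˣ → ((M ≃ₐ[F] M) →* ℂˣ)) (hkA : ∀ a : Fˣ, A0 F n N1 N3 ≤ (art (k a)).ker)
    (hkm : ∀ x ∈ SU F N1, ∀ y ∈ SU F N1, k (x * y) = k x * k y)
    (hk1 : ∀ x ∈ SU F N1, k x = 1 → ∃ y ∈ SU F N1, x = y ^ n)
    (hs : s = ((SU F N1).map (powMonoidHom n)).relIndex (SU F N1))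
    (hC3 : Nat.card (CC F n N1 N3) ≠ 0) (hC2 : Nat.card (CC F n N1 N3) ≤ s) :
    Function.Surjective (theta k hkA hkm) := by
  have hCfin : Finite (CC F n N1 N3) := Nat.finite_of_card_ne_zero hC3
  obtain ⟨hdf, hdc⟩ := card_dual (CC F n N1 N3)
  have hrange : s ≤ Nat.card (theta k hkA hkm).range := by
    rw [← AddSubgroup.index_ker, hs]
    have hle := theta_ker hCheb hN30 k hkA hkm hk1
    have hne : (theta k hkA hkm).ker.index ≠ 0 := by
      rw [AddSubgroup.index_ker]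
      exact Nat.card_pos.ne'
    have h1 := AddSubgroup.index_dvd_of_le hle
    rw [Subgroup.index_toAddSubgroup] at h1
    exact Nat.le_of_dvd (Nat.pos_of_ne_zero hne) h1
  rw [← AddMonoidHom.range_eq_top]
  apply AddSubgroup.eq_top_of_le_card
  rw [hdc]
  exact hC2.trans hrange

end

theorem exk_of (hFin : S_Fin) (hCheb : S_Cheb) (hAR : S_AR) : S_EXK := by
  intro hTRIV hNRM hSPL hK4 hLOCN hCNT hUNT hKUM F _ _ n N ζ χ hn hζ hN hχn hχ
  have hpos : ∀ φ : F →+* ℝ, False := no_real hn hζ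
  obtain ⟨Nc, hNc, hcl0⟩ := exists_supp hFin F
  -- the first modulus
  obtain ⟨N1, hN1⟩ : ∃ N1, N1 = N * n * Nc := ⟨_, rfl⟩
  have hN10 : N1 ≠ 0 := by
    rw [hN1]
    exact mul_ne_zero (mul_ne_zero hN (by omega)) hNc
  have d1 : N ∣ N1 := ⟨n * Nc, by rw [hN1]; ring⟩
  have d2 : n ∣ N1 := ⟨N * Nc, by rw [hN1]; ring⟩
  have d3 : Nc ∣ N1 := ⟨N * n, by rw [hN1]; ring⟩
  have hcl := hcl0 N1 d3
  obtain ⟨M, i1, i2, i3, i4, k, hRM, hkn, hkm, hk1⟩ := hKUM hUNT F n N1 ζ hn hζ hN10 d2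
  obtain ⟨Nr, hNr, hr⟩ := recip_all hAR F M
  -- the second modulus
  obtain ⟨N3, hN3⟩ : ∃ N3, N3 = N1 * n ^ 3 * Nr := ⟨_, rfl⟩
  have hN30 : N3 ≠ 0 := by
    rw [hN3]
    exact mul_ne_zero (mul_ne_zero hN10 (pow_ne_zero 3 (by omega))) hNr
  have d4 : N1 * n ^ 3 ∣ N3 := ⟨Nr, hN3⟩
  have d5 : N1 ∣ N3 := (Dvd.intro _ rfl).trans d4
  have d6 : Nr ∣ N3 := ⟨N1 * n ^ 3, by rw [hN3]; ring⟩
  have d7 : N ∣ N3 := d1.trans d5
  have hRM3 : Ram F M N3 := Ram_mono d5 hRM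
  clear hN1 hN3
  -- the relations are killed
  have hχA : A0 F n N1 N3 ≤ χ.ker := A0_le_chi d1 d7 hχn hχ
  have hkA : ∀ a : Fˣ, A0 F n N1 N3 ≤ (art (k a)).ker := by
    intro a
    refine A0_le_ker (fun x hx1 hx2 hx3 => ?_) fun D hD => art_pow_zero (k a) (hkn a) D
    refine hTRIV hNRM F M (k a) N3 hN30 hRM3 (fun x hx => hr (k a) x (Ray_mono d6 hx)) x hx1 hx2
      fun v hv hvN => ?_
    exact hx3 v (hRM v hv) hvN
  -- counting
  obtain ⟨s, hs⟩ : ∃ s, s = ((SU F N1).map (powMonoidHom n)).relIndex (SU F N1) := ⟨_, rfl⟩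
  have hs2 : s ^ 2 = n ^ (2 * Nat.card (primesOf F N1) + Module.finrank ℚ F) := by
    rw [hs]
    exact hUNT F n N1 ζ hn hζ hN10
  have hs0 : 0 < s := by
    rcases Nat.eq_zero_or_pos s with h | h
    · exfalso
      rw [h, zero_pow two_ne_zero] at hs2
      exact pow_ne_zero _ (by omega) hs2.symm
    · exact h
  have hcnt := hCNT hLOCN F n N1 N3 ζ (by omega) hζ hN30 d2 d5
  have hpowle : (SU F N1).map (powMonoidHom n) ≤ SU F N1 := by
    rintro _ ⟨a, ha, rfl⟩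
    exact (SU F N1).pow_mem ha n
  have hb := index_bound (UX F N1 N3) (PX F n N1 N3) (SU F N1) ((SU F N1).map (powMonoidHom n))
    PX_le_UX SU_le_UX hpowle
    (SU_inf_PX (by omega) d2 d4 hN30 (hK4 hNRM hSPL F n N1 ζ hn hζ hN10 d2 hcl)) hcnt.1
    (hcnt.2.trans hs2.ge) hs.symm hs0
  obtain ⟨hC3, hC2⟩ := card_CC (s := s) hpos d5 hcl hb.1 hb.2
  obtain ⟨a, ha⟩ := theta_surj hCheb hN30 k hkA hkm hk1 hs hC3 hC2 (toC χ hχA)
  rw [theta_apply] at ha
  refine ⟨M, i1, i2, i3, i4, k a.toMul.1, N3, hN30, d7, hRM3, fun D hD => ?_⟩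
  have h1 := toC_mk (art (k a.toMul.1)) (hkA a.toMul.1) ⟨D, hD⟩
  have h2 := toC_mk χ hχA ⟨D, hD⟩
  rw [ha, h2] at h1
  exact h1.symm

end Pool.Agent.Q53.EX
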