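import Pool.Agent.Q92.AR.All
import Pool.Agent.Q53.EX.Exi0
import Pool.Agent.Q53.EX.Desc1
import Pool.Agent.Q53.EX.Exk1

/-!
# Project EX, jobs EXK, DESC, EXI
-/

set_option autoImplicit false

namespace Pool.Agent.Q53.EX

open Pool.Agent.Q92.AR Pool.Agent.Q20.EX

/-- JOB EXI -/
theorem exi : S_EXI := exi_of all_Fin Pool.Agent.Q106.AR.nm

/-- JOB DESC -/
theorem desc : S_DESC := desc_of Pool.Agent.Q280.AR.rF Pool.Agent.Q225.AR.fr all_NKer
  Pool.Agent.Q280.AR.tow Pool.Agent.Q14.AR.cheb recip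

/-- JOB EXK -/
theorem exk : S_EXK := exk_of all_Fin Pool.Agent.Q14.AR.cheb recip

end Pool.Agent.Q53.EX
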