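import Pool.Agent.Q53.EX.Tw0

/-!
# Project EX, job TW2
-/

set_option autoImplicit false
set_option linter.unusedSectionVars false
set_option linter.deprecated false

namespace Pool.Agent.Q53.EX

open NumberField IsDedekindDomain Pool.Agent.Q5.BR Pool.Agent.Q92.AR Pool.Agent.Q20.EX
open Pool.Agent.TeamU (act act_one act_mul mem_act val_act')
open Pool.Agent.Q125.AR (Ray_mono Ram_mono art_eq_sum chi_frob mem_under finite_dvd
  prin_eq_zero_of_valuation)

/-- the splitting condition -/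
theorem tw_split (F E F1 L N : Type) [Field F] [NumberField F] [Field E] [NumberField E] [Field F1]
    [NumberField F1] [Field L] [NumberField L] [Field N] [NumberField N] [Algebra F E]
    [Algebra F F1] [Algebra F L] [Algebra F N] [Algebra E L] [Algebra F1 L] [Algebra E N]
    [Algebra F1 N] [Algebra L N] [IsScalarTower F E L] [IsScalarTower F F1 L]
    [IsScalarTower F E N] [IsScalarTower F F1 N] [IsScalarTower F L N] [IsScalarTower E L N]
    [IsScalarTower F1 L N] [IsGalois F N] [IsGalois F E] [IsGalois F1 L]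
    (ψ : (N ≃ₐ[F] N) →* ℂˣ)
    (hdec : ∀ w : HeightOneSpectrum (𝓞 N), (∃ g : N ≃ₐ[F] N, Inert w g ∧ ψ g ≠ 1) →
      ∀ g : N ≃ₐ[F] N, act g w = w → ∀ x : E, g (algebraMap E N x) = algebraMap E N x)
    (hL : ∀ g : N ≃ₐ[F1] N, (∀ x : E, g (algebraMap E N x) = algebraMap E N x) →
      ∀ x : L, g (algebraMap L N x) = algebraMap L N x)
    (u : HeightOneSpectrum (𝓞 F1)) (hu : u.under (𝓞 F) ∈ RamSet ψ) : Split L u := by
  have : IsGalois F1 N := IsGalois.tower_top_of_isGalois F F1 N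
  have : IsGalois L N := IsGalois.tower_top_of_isGalois F L N
  intro w0 hw0 g hg
  have hsurj : Function.Surjective
      (AlgEquiv.restrictNormalHom L : (N ≃ₐ[F1] N) →* (L ≃ₐ[F1] L)) :=
    AlgEquiv.restrictNormalHom_surjective N
  obtain ⟨g1, hg1⟩ := hsurj g
  obtain ⟨w1, hw1⟩ := Pool.Agent.Q149.AR.above_nonempty (E := N) w0
  have hg1' : ∀ x : L, g1 (algebraMap L N x) = algebraMap L N (g x) := by
    intro x
    rw [← hg1]
    exact (AlgEquiv.restrictNormal_commutes g1 L x).symm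
  have h1 : (act g1 w1).under (𝓞 L) = w1.under (𝓞 L) := by
    rw [under_act g1 g hg1', hw1, hg]
  obtain ⟨h, hh⟩ := Pool.Agent.Q149.AR.trans_act (F := L) (E := N) h1
  -- the product
  let g2 : N ≃ₐ[F1] N := (h.restrictScalars F1) * g1
  have hg2 : ∀ x : L, g2 (algebraMap L N x) = algebraMap L N (g x) := by
    intro x
    change h (g1 (algebraMap L N x)) = _
    rw [hg1', h.commutes]
  have hfix : act (rs F F1 N g2) w1 = w1 := by
    have e1 : act (rs F F1 N g2) w1 = act g2 w1 := rfl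
    rw [e1, act_mul]
    exact hh
  -- ramification at `w1`
  obtain ⟨w', hw', g', hg', hψ'⟩ := hu
  have h2 : w'.under (𝓞 F) = w1.under (𝓞 F) := by
    rw [hw', ← hw0, ← hw1, Pool.Agent.Q280.AR.under_under F F1 L,
      Pool.Agent.Q280.AR.under_under F L N]
  obtain ⟨τ, hτ⟩ := Pool.Agent.Q149.AR.trans_act (F := F) (E := N) h2
  have h3 : ∀ x : E, rs F F1 N g2 (algebraMap E N x) = algebraMap E N x := by
    refine hdec w1 ⟨τ * g' * τ⁻¹, ?_, ?_⟩ _ hfix
    · rw [← hτ]
      exact inert_conj τ hg'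
    · rw [map_mul, map_mul, map_inv, mul_comm (ψ τ), mul_assoc, mul_inv_cancel, mul_one]
      exact hψ'
  have h4 := hL g2 h3
  ext x
  have h5 : algebraMap L N (g x) = algebraMap L N x := by
    rw [← hg2, h4]
  exact (algebraMap L N).injective h5

/-- JOB TW2 -/
theorem tw2 : S_TW2 := by
  intro hNRM hNCG hGOOD hUNR hTRIV hRES hTRV2 hDIH F E F1 L N _ _ _ _ _ _ _ _ _ _ _ _ _ _ _ _ _ _ _
    _ _ _ _ _ _ _ _ _ _ ψ α s t S N0 hs2 hgen hts hdec hL hS hS' hN0 hα hα1 hα2 hα3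
  have hGE : IsGalois E N := IsGalois.tower_top_of_isGalois F E N
  have hGF1 : IsGalois F1 N := IsGalois.tower_top_of_isGalois F F1 N
  have hGL : IsGalois L N := IsGalois.tower_top_of_isGalois F L N
  obtain ⟨N2, hN2, hR2, hr2, ht2⟩ := hTRV2 hNRM hTRIV F N ψ
  obtain ⟨N3, hN3⟩ : ∃ N3, N3 = N0 * N2 := ⟨_, rfl⟩
  have hN30 : N3 ≠ 0 := by
    rw [hN3]
    exact mul_ne_zero hN0 hN2
  have d0 : N0 ∣ N3 := ⟨N2, hN3⟩
  have d2 : N2 ∣ N3 := ⟨N0, by rw [hN3]; ring⟩
  clear hN3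
  have hR3 : Ram F N N3 := Ram_mono d2 hR2
  have hRE : Ram E N N3 := ram_top hR3
  have hRF1 : Ram F1 N N3 := ram_top hR3
  have hsE : AlgEquiv.restrictNormal t E = s := by
    ext x
    apply (algebraMap E N).injective
    rw [AlgEquiv.restrictNormal_commutes, hts]
  have hmain : TrivAt Set.univ N3 ((art ψ).comp (nmD F F1)) := by
    refine hDIH hNRM F E F1 L s N3 (RamSet ψ) S (art ψ) (art α) hN30 hs2 hgen hS hS'
      (ramSet_sub hR3) (fun x hx => hr2 x (Ray_mono d2 hx)) (TrivAt_mono d2 ht2)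
      (fun x hx => hα x (Ray_mono d0 hx)) (TrivAt_mono d0 hα2) ?_ ?_
      (tw_split F E F1 L N ψ hdec hL)
    · intro x hx1 hx2 hx3
      have h1 := TrivAt_mono d0 hα1 x hx1 hx2 hx3
      rw [AddMonoidHom.sub_apply] at h1 ⊢
      rw [AddMonoidHom.comp_apply, ← hRES F E N ψ N3 hN30 hR3 (prin x) (prin_mem_Pr_of_Un hx1)]
      exact h1
    · intro D hD
      have h1 : nmD E L D ∈ Pr E N3 := Pool.Agent.Q106.AR.nm_Pr hD
      rw [art_conj hRE t s hsE α h1, ← hRES E L N α N3 hN30 hRE D hD,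
        ← hRES E L N (α.comp (cjHom t)) N3 hN30 hRE D hD]
      congr 2
      refine MonoidHom.ext fun g => ?_
      change α (rs E L N g) = α (cjHom t (rs E L N g))
      exact hα3 (rs E L N g) (cjHom t (rs E L N g)) (fun x => g.commutes x) fun x => rfl
  have hfin : TrivAt Set.univ N3 (art (ψ.comp (rs F F1 N))) := by
    intro x hx1 hx2 hx3
    rw [hRES F F1 N ψ N3 hN30 hR3 (prin x) (prin_mem_Pr_of_Un hx1)]
    exact hmain x hx1 hx2 hx3
  intro w g hg
  exact hUNR hNRM hNCG hGOOD F1 N (ψ.comp (rs F F1 N)) N3 hN30 hRF1 hfin w g hg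

end Pool.Agent.Q53.EX
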