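import Pool.Agent.Q53.EX.UnrA
import Pool.Agent.Q84.AR.Hecke
import Pool.Agent.Q92.AR.Fin

/-!
# Job EX-UNR, part C: the functional equation of the L-function of a character of the narrow class group
-/

set_option autoImplicit false
set_option linter.unusedSectionVars false

namespace Pool.Agent.Q53.EX.Unr

open NumberField IsDedekindDomain Pool.Agent.Q92.AR Filter Complex Topology
open scoped ComplexConjugate
open Pool.Agent.Y773 (LI GG TPos)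
open Pool.Agent.Q84.AR (psi psi_apply dv dv_prime dv_span GG_inv)

theorem Gammaℝ_ne {s : ℂ} (hs : 0 < s.im) : Gammaℝ s ≠ 0 := by
  rw [Ne, Gammaℝ_eq_zero_iff]
  rintro ⟨n, rfl⟩
  simp at hs

theorem Gammaℝ_an {s : ℂ} (hs : 0 < s.im) : AnalyticAt ℂ Gammaℝ s := by
  have h1 : AnalyticAt ℂ (fun z => (Gammaℝ z)⁻¹) s := differentiable_Gammaℝ_inv.analyticAt s
  have h2 := h1.inv (inv_ne_zero (Gammaℝ_ne hs))
  have h3 : (fun z => (Gammaℝ z)⁻¹)⁻¹ = Gammaℝ := by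
    funext z
    simp
  rwa [h3] at h2

theorem GG_an {ι : Type} [Fintype ι] {R : ℝ} (hR : 0 < R) (e : ι → ℕ) {s : ℂ} (hs : 0 < s.im) :
    AnalyticAt ℂ (GG R e) s ∧ GG R e s ≠ 0 := by
  have hR0 : (R : ℂ) ≠ 0 := by exact_mod_cast hR.ne'
  have him : ∀ i, 0 < (s + (e i : ℂ)).im := fun i => by simpa using hs
  constructor
  · have h1 : Differentiable ℂ fun s : ℂ => (R : ℂ) ^ (s / 2) := fun s =>
      (differentiableAt_id.div_const 2).const_cpow (Or.inl hR0)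
    refine (h1.analyticAt s).mul ?_
    refine Finset.analyticAt_fun_prod _ fun i _ => ?_
    have h2 : AnalyticAt ℂ (fun s : ℂ => s + (e i : ℂ)) s := by fun_prop
    exact (Gammaℝ_an (him i)).comp_of_eq h2 rfl
  · unfold GG
    refine mul_ne_zero ?_ (Finset.prod_ne_zero_iff.2 fun i _ => Gammaℝ_ne (him i))
    rw [Ne, Complex.cpow_eq_zero_iff]
    exact fun h => hR0 h.1

section
variable {F : Type} [Field F] [NumberField F]

/-- the values of a character of the divisors at the primes -/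
noncomputable def val (c : Dv F →+ Additive ℂˣ) (v : HeightOneSpectrum (𝓞 F)) : ℂ :=
  (((c (Finsupp.single v 1)).toMul : ℂˣ) : ℂ)

open Pool.Agent.Q246 in
/-- the functional equation -/
theorem exists_FE (c : Dv F →+ Additive ℂˣ) (hc : ∀ x : Fˣ, Pos (x : F) → c (prin x) = 0) :
    ∃ (U A : ℂ → ℂ) (w : ℂ), FE U w ∧ U 2 ≠ 0 ∧
      (∀ s : ℂ, 0 < s.im → AnalyticAt ℂ A s ∧ A s ≠ 0) ∧
      (∀ s : ℂ, 1 < s.re → U s = A s * LP Set.univ (val c) s) ∧ ∀ v, ‖val c v‖ = 1 := by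
  classical
  set ψ : Ideal (𝓞 F) →*₀ ℂ := psi 1 c with hψ
  have hcop : ∀ 𝔞 : Ideal (𝓞 F), IsCoprime 𝔞 (Ideal.span {((1 : ℕ) : 𝓞 F)}) := by
    intro 𝔞
    rw [Nat.cast_one, Ideal.span_singleton_one]
    exact Ideal.isCoprime_iff_sup_eq.2 (by simp)
  have hval : ∀ 𝔞 : Ideal (𝓞 F), 𝔞 ≠ ⊥ → ψ 𝔞 = (((c (dv 𝔞)).toMul : ℂˣ) : ℂ) := by
    intro 𝔞 h
    rw [hψ, psi_apply, if_pos ⟨h, hcop 𝔞⟩]
  have hpos : ∀ x : 𝓞 F, x ≠ 0 → x - 1 ∈ (⊤ : Ideal (𝓞 F)) → TPos F x → ψ (Ideal.span {x}) = 1 := by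
    intro x hx0 _ hx
    have hx0F : (x : F) ≠ 0 := by
      intro h
      exact hx0 (by exact_mod_cast h)
    rw [hval _ (by rwa [Ne, Ideal.span_singleton_eq_bot]), dv_span (Units.mk0 (x : F) hx0F) rfl,
      hc (Units.mk0 (x : F) hx0F) hx]
    rfl
  obtain ⟨e, he, hecx, hsig⟩ := Pool.Agent.Y772.G.t_sig F ⊤ ψ top_ne_bot hpos
  have hUC : Unr.UC e ψ := by
    refine ⟨he, hecx, fun 𝔞 h0 => ?_, fun x h0 => hsig x h0 trivial⟩
    rw [hval 𝔞 h0]
    exact Units.ne_zero _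
  obtain ⟨U, w, hU, hw, hUL, hfe, -⟩ := hUC.fe
  have hD : (0 : ℝ) < (Ideal.absNorm (differentIdeal ℤ (𝓞 F)) : ℝ) := by
    have : Ideal.absNorm (differentIdeal ℤ (𝓞 F)) ≠ 0 := by
      rw [Ne, Ideal.absNorm_eq_zero_iff]
      exact differentIdeal_ne_bot
    exact_mod_cast Nat.pos_of_ne_zero this
  have hn1 : ∀ 𝔞, ‖ψ 𝔞‖ ≤ 1 := fun 𝔞 => hUC.norm_le_one 𝔞
  have hL : ∀ s : ℂ, 1 < s.re → LI ψ s = LP Set.univ (val c) s := by
    intro s hs
    rw [hψ, ← Pool.Agent.Q84.AR.Lc_eq hn1 hs, Pool.Agent.Q92.AR.Lc_eq]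
    have e1 : {v : HeightOneSpectrum (𝓞 F) | ((1 : ℕ) : 𝓞 F) ∉ v.asIdeal} = Set.univ := by
      ext v
      simp only [Set.mem_setOf_eq, Set.mem_univ, iff_true, Nat.cast_one]
      exact fun h => v.isPrime.ne_top ((Ideal.eq_top_iff_one _).2 h)
    rw [e1]
    rfl
  set r : ℕ := if Unr.Triv ψ then 1 else 0 with hr
  set A : ℂ → ℂ := fun s => (s * (s - 1)) ^ r *
    GG (Ideal.absNorm (differentIdeal ℤ (𝓞 F)) : ℝ) (Pool.Agent.Y773.G.ex e) s with hA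
  have hUA : ∀ s : ℂ, 1 < s.re → U s = A s * LP Set.univ (val c) s := by
    intro s hs
    rw [← hL s hs, hUL s hs, hA]
    ring
  have hw0 : w ≠ 0 := by
    rintro rfl
    simp at hw
  have hGG2 : GG (Ideal.absNorm (differentIdeal ℤ (𝓞 F)) : ℝ) (Pool.Agent.Y773.G.ex e) 2 ≠ 0 := by
    obtain ⟨G, -, hG⟩ := GG_inv hD (Pool.Agent.Y773.G.ex e)
    intro h
    have := hG 2 (by norm_num)
    rw [h, zero_mul] at this
    exact zero_ne_one this
  have hU2 : U 2 ≠ 0 := by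
    rw [hUA 2 (by norm_num)]
    refine mul_ne_zero (mul_ne_zero (pow_ne_zero _ (by norm_num)) hGG2) (LP_ne_zero _ _ _)
  refine ⟨U, A, w, ⟨hU, hw0, hfe, 2, hU2⟩, hU2, fun s hs => ?_, hUA, fun v => ?_⟩
  · obtain ⟨h1, h2⟩ := GG_an hD (Pool.Agent.Y773.G.ex e) hs
    have h3 : AnalyticAt ℂ (fun s : ℂ => (s * (s - 1)) ^ r) s := by fun_prop
    refine ⟨h3.mul h1, mul_ne_zero (pow_ne_zero _ (mul_ne_zero ?_ ?_)) h2⟩
    · rintro rfl
      simp at hs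
    · intro h4
      have h5 := congrArg Complex.im h4
      simp at h5
      linarith
  · have h1 := hUC.norm_one v.ne_bot
    rw [hval _ v.ne_bot, dv_prime] at h1
    exact h1

end

end Pool.Agent.Q53.EX.Unr
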