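import Pool.Agent.Q53.EX.UnrB
import Pool.Agent.Q53.EX.UnrC
import Pool.Agent.Q125.AR.Arc

/-!
# Job EX-UNR, part D: the cyclic case
-/

set_option autoImplicit false
set_option linter.unusedSectionVars false

namespace Pool.Agent.Q53.EX.Unr

open NumberField IsDedekindDomain Pool.Agent.Q5.BR Pool.Agent.Q92.AR Filter Complex Topology
open Pool.Agent.Q92.RT (induced)
open Pool.Agent.H921R2.TatePole (nm two_le_nm)

section
variable {F M : Type} [Field F] [NumberField F] [Field M] [NumberField M] [Algebra F M]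

theorem sum_er (v : HeightOneSpectrum (𝓞 F)) :
    ∑ w ∈ above M v, Ideal.ramificationIdx' v.asIdeal w.asIdeal * rdeg F w =
      Module.finrank F M := by
  have hvm : v.asIdeal.IsMaximal := v.isMaximal
  rw [← Ideal.sum_ramification_inertia (𝓞 M) F M v.ne_bot]
  refine Finset.sum_bij (fun w _ => w.asIdeal) ?_ ?_ ?_ ?_
  · intro w hw
    rw [IsDedekindDomain.mem_primesOverFinset_iff v.ne_bot]
    refine ⟨w.isPrime, ⟨?_⟩⟩
    rw [← mem_above.1 hw]
    rfl
  · intro w _ w' _ h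
    exact HeightOneSpectrum.ext h
  · intro P hP
    rw [IsDedekindDomain.mem_primesOverFinset_iff v.ne_bot] at hP
    obtain ⟨hP1, hP2⟩ := hP
    refine ⟨⟨P, hP1, fun h => v.ne_bot ?_⟩, mem_above.2 (HeightOneSpectrum.ext ?_), rfl⟩
    · rw [hP2.over, h]
      rw [eq_bot_iff]
      intro x hx
      rw [Ideal.mem_bot]
      have hx2 : algebraMap (𝓞 F) (𝓞 M) x = 0 := hx
      exact (map_eq_zero_iff _ (FaithfulSMul.algebraMap_injective (𝓞 F) (𝓞 M))).1 hx2
    · exact hP2.over.symm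
  · intro w hw
    unfold rdeg
    rw [mem_above.1 hw]

/-- the residue degrees above a ramified prime -/
theorem sum_rdeg_lt {v : HeightOneSpectrum (𝓞 F)} (hv : ¬ Unramified M v) :
    ∑ w ∈ above M v, rdeg F w < Module.finrank F M := by
  rw [← sum_er v]
  have hmap : ∀ w ∈ above M v, v.asIdeal.map (algebraMap (𝓞 F) (𝓞 M)) ≤ w.asIdeal := by
    intro w hw
    rw [Ideal.map_le_iff_le_comap, ← mem_above.1 hw]
    exact le_rfl
  have hmap0 : v.asIdeal.map (algebraMap (𝓞 F) (𝓞 M)) ≠ ⊥ := by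
    rw [Ne, Ideal.map_eq_bot_iff_of_injective (FaithfulSMul.algebraMap_injective (𝓞 F) (𝓞 M))]
    exact v.ne_bot
  have hne0 : ∀ w ∈ above M v, Ideal.ramificationIdx' v.asIdeal w.asIdeal ≠ 0 := fun w hw =>
    Ideal.IsDedekindDomain.ramificationIdx'_ne_zero hmap0 w.isPrime (hmap w hw)
  refine Finset.sum_lt_sum (fun w hw => ?_) ?_
  · exact Nat.le_mul_of_pos_left _ (Nat.pos_of_ne_zero (hne0 w hw))
  · unfold Unramified at hv
    push Not at hv
    obtain ⟨w, hw, hw2⟩ := hv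
    have hwa : w ∈ above M v := mem_above.2 hw
    refine ⟨w, hwa, ?_⟩
    have h1 : Ideal.ramificationIdx' v.asIdeal w.asIdeal ≠ 1 :=
      (Ideal.ramificationIdx'_ne_one_iff (hmap w hwa)).2 hw2
    have h2 := hne0 w hwa
    have h3 : 1 < Ideal.ramificationIdx' v.asIdeal w.asIdeal := by omega
    have h4 := rdeg_pos (K := F) w
    nlinarith

end

section
variable {F M : Type} [Field F] [NumberField F] [Field M] [NumberField M] [Algebra F M]
  [IsGalois F M]

/-- the regular character -/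
theorem regular {ψ : (M ≃ₐ[F] M) →* ℂˣ} (hψ : Function.Injective ψ) (g : M ≃ₐ[F] M) :
    induced (fixer F M M) 1 g =
      ∑ j ∈ Finset.range (Nat.card (M ≃ₐ[F] M)), ((1 : ℕ) : ℂ) * (((ψ g : ℂˣ) : ℂ)) ^ j := by
  classical
  have : Fintype (M ≃ₐ[F] M) := Fintype.ofFinite _
  have hf : ∀ x : M ≃ₐ[F] M, x ∈ fixer F M M ↔ x = 1 := by
    intro x
    constructor
    · intro h
      ext y
      exact h y
    · rintro rfl y
      rfl
  have hcard : Nat.card (fixer F M M) = 1 := by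
    rw [Nat.card_eq_one_iff_unique]
    refine ⟨⟨fun a b => ?_⟩, ⟨1⟩⟩
    exact Subtype.ext (((hf _).1 a.2).trans ((hf _).1 b.2).symm)
  unfold induced
  rw [hcard, Nat.cast_one, inv_one, one_mul, finsum_eq_sum_of_fintype]
  have e1 : ∀ x : M ≃ₐ[F] M, (if h : x⁻¹ * g * x ∈ fixer F M M then
      (((1 : fixer F M M →* ℂˣ) ⟨x⁻¹ * g * x, h⟩ : ℂˣ) : ℂ) else 0) = if g = 1 then 1 else 0 := by
    intro x
    have h1 : x⁻¹ * g * x ∈ fixer F M M ↔ g = 1 := by
      rw [hf]
      constructor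
      · intro h
        have : g = x * (x⁻¹ * g * x) * x⁻¹ := by group
        rw [this, h]
        group
      · rintro rfl
        group
    by_cases h : g = 1
    · rw [dif_pos (h1.2 h), if_pos h]
      rfl
    · rw [dif_neg (fun h2 => h (h1.1 h2)), if_neg h]
  simp_rw [e1]
  rw [Finset.sum_const, Finset.card_univ, ← Nat.card_eq_fintype_card]
  by_cases hg : g = 1
  · subst hg
    simp
  · rw [if_neg hg, smul_zero]
    have h1 : ((ψ g : ℂˣ) : ℂ) ≠ 1 := by
      intro h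
      apply hg
      apply hψ
      rw [map_one]
      exact Units.ext h
    have h2 : ((ψ g : ℂˣ) : ℂ) ^ Nat.card (M ≃ₐ[F] M) = 1 := by
      rw [← Units.val_pow_eq_pow_val, ← map_pow, pow_card_eq_one', map_one, Units.val_one]
    simp only [one_mul]
    rw [geom_sum_eq h1, h2, sub_self, zero_div]

/-- the factorization of the zeta function of `M` -/
theorem LP_prod {ψ : (M ≃ₐ[F] M) →* ℂˣ} (hψ : Function.Injective ψ) {s : ℂ} (hs : 1 < s.re) :
    LP {w : HeightOneSpectrum (𝓞 M) | Unramified M (w.under (𝓞 F))} (fun _ => 1) s =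
      ∏ j ∈ Finset.range (Nat.card (M ≃ₐ[F] M)),
        LP {v : HeightOneSpectrum (𝓞 F) | Unramified M v}
          (fun v => (((ψ (frob M v) : ℂˣ) : ℂ)) ^ j) s := by
  classical
  have h1 := artinL_induced (K := F) (F := M) (M := M) 1 1 (fun y hy => rfl) hs
  have h2 : induced (fixer F M M) 1 = fun g => ∑ j ∈ Finset.range (Nat.card (M ≃ₐ[F] M)),
      ((1 : ℕ) : ℂ) * (((ψ g : ℂˣ) : ℂ)) ^ j := funext fun g => regular hψ g
  rw [h2, artinL_sum (M := M) _ (fun _ => 1) (fun j g => (((ψ g : ℂˣ) : ℂ)) ^ j) hs] at h1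
  have h3 : (fun w : HeightOneSpectrum (𝓞 M) => (((1 : (M ≃ₐ[M] M) →* ℂˣ) (frob M w) : ℂˣ) : ℂ)) =
      fun _ => 1 := funext fun w => rfl
  rw [h3] at h1
  rw [← h1]
  refine Finset.prod_congr rfl fun j _ => ?_
  rw [pow_one]
  unfold artinL LP
  congr 1
  refine tsum_congr fun x => ?_
  unfold artTerm lterm
  by_cases h : Unramified M x.1
  · have h4 : x.1 ∈ {v : HeightOneSpectrum (𝓞 F) | Unramified M v} := h
    rw [if_pos h, if_pos h4]
    beta_reduce
    rw [map_pow, Units.val_pow_eq_pow_val, ← pow_mul, ← pow_mul, mul_comm (x.2 + 1) j]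
  · have h4 : x.1 ∉ {v : HeightOneSpectrum (𝓞 F) | Unramified M v} := h
    rw [if_neg h, if_neg h4]

theorem norm_psi (ψ : (M ≃ₐ[F] M) →* ℂˣ) (g : M ≃ₐ[F] M) : ‖((ψ g : ℂˣ) : ℂ)‖ = 1 := by
  have h : ((ψ g : ℂˣ) : ℂ) ^ Nat.card (M ≃ₐ[F] M) = 1 := by
    rw [← Units.val_pow_eq_pow_val, ← map_pow, pow_card_eq_one', map_one, Units.val_one]
  exact Complex.norm_eq_one_of_pow_eq_one h Nat.card_pos.ne'

theorem fac_ne {z : ℂ} (hz : ‖z‖ ≤ 1) (v : HeightOneSpectrum (𝓞 F)) {s : ℂ} (hs : 0 < s.re) :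
    fac z (nm v) s ≠ 0 := one_sub_ne (norm_fac_lt hz v hs)

theorem LP_fac {P : Set (HeightOneSpectrum (𝓞 F))} (hP : P.Finite)
    {χ : HeightOneSpectrum (𝓞 F) → ℂ} (hχ : ∀ v ∈ P, ‖χ v‖ ≤ 1) {s : ℂ} (hs : 1 < s.re) :
    LP P χ s * ∏ v ∈ hP.toFinset, fac (χ v) (nm v) s = 1 := by
  rw [LP_finite hP hχ hs, ← Finset.prod_mul_distrib]
  refine Finset.prod_eq_one fun v hv => inv_mul_cancel₀ ?_
  exact one_sub_ne (norm_fac_lt (hχ v (hP.mem_toFinset.1 hv)) v (by linarith))

/-- removing Euler factors -/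
theorem LP_remove {P P' : Set (HeightOneSpectrum (𝓞 F))} (hd : Disjoint P P') (hP' : P'.Finite)
    {χ : HeightOneSpectrum (𝓞 F) → ℂ} (hχ : ∀ v, ‖χ v‖ ≤ 1) {s : ℂ} (hs : 1 < s.re) :
    LP (P ∪ P') χ s * ∏ v ∈ hP'.toFinset, fac (χ v) (nm v) s = LP P χ s := by
  rw [LP_union hd hχ hs, mul_assoc, LP_fac hP' (fun v _ => hχ v) hs, mul_one]

/-- **The cyclic case.** -/
theorem cyclic {ψ : (M ≃ₐ[F] M) →* ℂˣ} (hψ : Function.Injective ψ) {N : ℕ} (hN : N ≠ 0)
    (hR : Ram F M N) {c : Dv F →+ Additive ℂˣ} (hc : ∀ x : Fˣ, Pos (x : F) → c (prin x) = 0)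
    (hcψ : ∀ D ∈ Pr F N, c D = art ψ D) (v : HeightOneSpectrum (𝓞 F)) : Unramified M v := by
  classical
  set n := Nat.card (M ≃ₐ[F] M) with hn
  -- the functions
  have hcj : ∀ j : ℕ, ∀ x : Fˣ, Pos (x : F) → (j • c) (prin x) = 0 := by
    intro j x hx
    rw [AddMonoidHom.nsmul_apply, hc x hx, smul_zero]
  choose U A w hFE hU2 hA hUA hn1 using fun j : ℕ => exists_FE (j • c) (hcj j)
  obtain ⟨UM, AM, wM, hFM, -, hAM, hUM, -⟩ := exists_FE (F := M) 0 (fun _ _ => rfl)
  have hval0 : val (F := M) 0 = fun _ => 1 := funext fun _ => rfl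
  rw [hval0] at hUM
  -- the sets of primes
  set S : Set (HeightOneSpectrum (𝓞 F)) := {v | (N : 𝓞 F) ∈ v.asIdeal} with hS
  have hSf : S.Finite := mem_finite hN
  set Ur : Set (HeightOneSpectrum (𝓞 F)) := {v | Unramified M v} with hUr
  have hUS : Sᶜ ⊆ Ur := by
    intro v hv
    by_contra h
    exact hv (hR v h)
  set T : Set (HeightOneSpectrum (𝓞 F)) := Ur ∩ S with hT
  have hTf : T.Finite := hSf.subset Set.inter_subset_right
  set W : Set (HeightOneSpectrum (𝓞 M)) := {w | Unramified M (w.under (𝓞 F))} with hW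
  have hWf : (Wᶜ).Finite := by
    refine (mem_finite (F := M) hN).subset fun w hw => ?_
    have h1 := hR _ hw
    have h2 : algebraMap (𝓞 F) (𝓞 M) (N : 𝓞 F) ∈ w.asIdeal := h1
    rw [map_natCast] at h2
    exact h2
  have hjc : ∀ (j : ℕ) (v : HeightOneSpectrum (𝓞 F)), v ∈ Sᶜ →
      val (j • c) v = (((ψ (frob M v) : ℂˣ) : ℂ)) ^ j := by
    intro j v hv
    have h1 : Finsupp.single v (1 : ℤ) ∈ Pr F N := by
      intro u hu
      rw [Finsupp.single_apply, if_neg]
      rintro rfl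
      exact hv hu
    unfold val
    rw [AddMonoidHom.nsmul_apply, hcψ _ h1, art_single, one_smul, toMul_nsmul, toMul_ofMul,
      Units.val_pow_eq_pow_val]
  -- the two products
  set J : Finset (HeightOneSpectrum (𝓞 M) ⊕ (ℕ × HeightOneSpectrum (𝓞 F))) :=
    hWf.toFinset.disjSum (Finset.range n ×ˢ hTf.toFinset) with hJ
  set J' : Finset (ℕ × HeightOneSpectrum (𝓞 F)) := Finset.range n ×ˢ hSf.toFinset with hJ'
  set z : HeightOneSpectrum (𝓞 M) ⊕ (ℕ × HeightOneSpectrum (𝓞 F)) → ℂ :=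
    Sum.elim (fun _ => 1) (fun a => (((ψ (frob M a.2) : ℂˣ) : ℂ)) ^ a.1) with hz
  set q : HeightOneSpectrum (𝓞 M) ⊕ (ℕ × HeightOneSpectrum (𝓞 F)) → ℕ :=
    Sum.elim nm (fun a => nm a.2) with hq
  set z' : ℕ × HeightOneSpectrum (𝓞 F) → ℂ := fun a => val (a.1 • c) a.2 with hz'
  set q' : ℕ × HeightOneSpectrum (𝓞 F) → ℕ := fun a => nm a.2 with hq'
  have hz1 : ∀ i ∈ J, ‖z i‖ = 1 := by
    rintro (w | a) _
    · exact norm_one
    · show ‖(((ψ (frob M a.2) : ℂˣ) : ℂ)) ^ a.1‖ = 1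
      rw [norm_pow, norm_psi, one_pow]
  have hq1 : ∀ i ∈ J, 2 ≤ q i := by
    rintro (w | a) _
    · exact two_le_nm w
    · exact two_le_nm a.2
  have hz'1 : ∀ i ∈ J', ‖z' i‖ = 1 := fun i _ => hn1 i.1 i.2
  have hq'1 : ∀ i ∈ J', 2 ≤ q' i := fun i _ => two_le_nm i.2
  have hP1d : Differentiable ℂ fun s => ∏ i ∈ J, fac (z i) (q i) s :=
    Differentiable.fun_finsetProd fun i hi => fac_diff _ (hq1 i hi)
  have hP2d : Differentiable ℂ fun s => ∏ i ∈ J', fac (z' i) (q' i) s :=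
    Differentiable.fun_finsetProd fun i hi => fac_diff _ (hq'1 i hi)
  have hP1n : ∀ s : ℂ, 0 < s.re → ∏ i ∈ J, fac (z i) (q i) s ≠ 0 := by
    intro s hs
    refine Finset.prod_ne_zero_iff.2 ?_
    rintro (w | a) hi
    · exact fac_ne (hz1 _ hi).le w hs
    · exact fac_ne (hz1 _ hi).le a.2 hs
  have hP2n : ∀ s : ℂ, 0 < s.re → ∏ i ∈ J', fac (z' i) (q' i) s ≠ 0 := by
    intro s hs
    exact Finset.prod_ne_zero_iff.2 fun i hi => fac_ne (hz'1 i hi).le i.2 hs
  -- the Euler products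
  have hE : ∀ s : ℂ, 1 < s.re →
      LP Set.univ (fun _ : HeightOneSpectrum (𝓞 M) => 1) s * ∏ i ∈ J, fac (z i) (q i) s =
      (∏ j ∈ Finset.range n, LP Set.univ (val (j • c)) s) * ∏ i ∈ J', fac (z' i) (q' i) s := by
    intro s hs
    have e1 : ∏ i ∈ J, fac (z i) (q i) s = (∏ w ∈ hWf.toFinset, fac 1 (nm w) s) *
        ∏ j ∈ Finset.range n, ∏ v ∈ hTf.toFinset, fac ((((ψ (frob M v) : ℂˣ) : ℂ)) ^ j) (nm v) s := by
      rw [hJ, Finset.prod_disjSum, Finset.prod_product]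
      rfl
    have e2 : ∏ i ∈ J', fac (z' i) (q' i) s =
        ∏ j ∈ Finset.range n, ∏ v ∈ hSf.toFinset, fac (val (j • c) v) (nm v) s := by
      rw [hJ', Finset.prod_product]
    rw [e1, e2, ← mul_assoc, ← Finset.prod_mul_distrib]
    have e3 : LP Set.univ (fun _ : HeightOneSpectrum (𝓞 M) => 1) s *
        (∏ w ∈ hWf.toFinset, fac 1 (nm w) s) = LP W (fun _ => 1) s := by
      rw [← LP_remove (P := W) (P' := Wᶜ) disjoint_compl_right hWf (fun _ => norm_one.le) hs,
        Set.union_compl_self]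
    rw [e3, LP_prod hψ hs, ← hn, ← Finset.prod_mul_distrib]
    refine Finset.prod_congr rfl fun j _ => ?_
    have e4 : Ur = Sᶜ ∪ T := by
      ext v
      constructor
      · intro h
        by_cases h1 : v ∈ S
        · exact Or.inr ⟨h, h1⟩
        · exact Or.inl h1
      · rintro (h | h)
        · exact hUS h
        · exact h.1
    have e5 : Disjoint Sᶜ T := Set.disjoint_left.2 fun v h1 h2 => h1 h2.2
    have e6 := LP_remove (P := Sᶜ) (P' := T) e5 hTf (χ := fun v => (((ψ (frob M v) : ℂˣ) : ℂ)) ^ j)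
      (fun v => by rw [norm_pow, norm_psi, one_pow]) hs
    rw [← e4] at e6
    have e7 := LP_remove (P := Sᶜ) (P' := S) disjoint_compl_left hSf (χ := val (j • c))
      (fun v => (hn1 j v).le) hs
    rw [Set.compl_union_self] at e7
    rw [e6, e7]
    exact LP_congr (fun v hv => (hjc j v hv).symm) s
  -- comparison
  have hcore : ∀ t : ℝ, 0 < t → analyticOrderAt (fun s => ∏ i ∈ J, fac (z i) (q i) s) (t * I) =
      analyticOrderAt (fun s => ∏ i ∈ J', fac (z' i) (q' i) s) (t * I) := by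
    intro t ht
    refine core hFM (FE.prod (Finset.range n) (fun j _ => hFE j) 2 fun j _ => hU2 j) hAM
      (A2 := fun s => ∏ j ∈ Finset.range n, A j s) (fun s hs => ⟨?_, ?_⟩) hP1d hP2d hP1n hP2n ?_ t ht
    · exact Finset.analyticAt_fun_prod _ fun j _ => (hA j s hs).1
    · exact Finset.prod_ne_zero_iff.2 fun j _ => (hA j s hs).2
    · intro s hs
      have h1 := hE s hs
      have h2 : ∏ j ∈ Finset.range n, U j s = (∏ j ∈ Finset.range n, A j s) *
          ∏ j ∈ Finset.range n, LP Set.univ (val (j • c)) s := by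
        rw [← Finset.prod_mul_distrib]
        exact Finset.prod_congr rfl fun j _ => hUA j s hs
      rw [h2, hUM s hs]
      linear_combination (AM s * ∏ j ∈ Finset.range n, A j s) * h1
  have hdeg := degree_eq J J' hz1 hq1 hz'1 hq'1 hcore
  -- the degrees
  have d1 : ∑ i ∈ J, Real.log (q i) = ∑ w ∈ hWf.toFinset, Real.log (nm w) +
      ∑ j ∈ Finset.range n, ∑ v ∈ hTf.toFinset, Real.log (nm v) := by
    rw [hJ, Finset.sum_disjSum, Finset.sum_product]
    rfl
  have d2 : ∑ i ∈ J', Real.log (q' i) =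
      ∑ j ∈ Finset.range n, ∑ v ∈ hSf.toFinset, Real.log (nm v) := by
    rw [hJ', Finset.sum_product]
  rw [d1, d2, Finset.sum_const, Finset.sum_const, Finset.card_range, nsmul_eq_mul, nsmul_eq_mul]
    at hdeg
  set R : Finset (HeightOneSpectrum (𝓞 F)) := hSf.toFinset.filter fun v => ¬ Unramified M v with hRd
  have d3 : ∑ v ∈ hSf.toFinset, Real.log (nm v) =
      ∑ v ∈ hTf.toFinset, Real.log (nm v) + ∑ v ∈ R, Real.log (nm v) := by
    rw [← Finset.sum_filter_add_sum_filter_not hSf.toFinset (fun v => Unramified M v)]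
    congr 1
    refine Finset.sum_congr ?_ fun _ _ => rfl
    ext v
    rw [Finset.mem_filter, Set.Finite.mem_toFinset, Set.Finite.mem_toFinset, and_comm]
    rfl
  rw [d3] at hdeg
  have d4 : ∑ w ∈ hWf.toFinset, Real.log (nm w) = n * ∑ v ∈ R, Real.log (nm v) := by
    linear_combination hdeg
  have hmemR : ∀ v, v ∈ R ↔ ¬ Unramified M v := by
    intro v
    rw [hRd, Finset.mem_filter, Set.Finite.mem_toFinset]
    exact ⟨fun h => h.2, fun h => ⟨hR v h, h⟩⟩
  have d5 : ∑ w ∈ hWf.toFinset, Real.log (nm w) =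
      ∑ v ∈ R, ∑ w ∈ above M v, Real.log (nm w) := by
    rw [← Finset.sum_biUnion]
    · refine Finset.sum_congr ?_ fun _ _ => rfl
      ext w
      rw [Set.Finite.mem_toFinset, Finset.mem_biUnion]
      constructor
      · intro h
        exact ⟨_, (hmemR _).2 h, mem_above.2 rfl⟩
      · rintro ⟨v, hv, hw⟩ h
        apply (hmemR v).1 hv
        have h1 : Unramified M (w.under (𝓞 F)) := h
        rwa [mem_above.1 hw] at h1
    · intro v _ v' _ hvv
      rw [Function.onFun, Finset.disjoint_left]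
      intro w hw hw'
      exact hvv ((mem_above.1 hw).symm.trans (mem_above.1 hw'))
  have hlog : ∀ v : HeightOneSpectrum (𝓞 F), 0 < Real.log (nm v) := fun v =>
    Real.log_pos (by exact_mod_cast (by have := two_le_nm v; omega : 1 < nm v))
  have d6 : ∀ v : HeightOneSpectrum (𝓞 F), ∑ w ∈ above M v, Real.log (nm w) =
      ((∑ w ∈ above M v, rdeg F w : ℕ) : ℝ) * Real.log (nm v) := by
    intro v
    push_cast
    rw [Finset.sum_mul]
    refine Finset.sum_congr rfl fun w hw => ?_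
    have h1 : nm w = nm v ^ rdeg F w := by
      have h := absNorm_rdeg (K := F) w
      rw [mem_above.1 hw] at h
      exact h
    rw [h1, Nat.cast_pow, Real.log_pow]
  by_contra hv
  have hlt : ∑ v ∈ R, ∑ w ∈ above M v, Real.log (nm w) < ∑ v ∈ R, (n : ℝ) * Real.log (nm v) := by
    have hn2 : n = Module.finrank F M := by
      rw [hn, IsGalois.card_aut_eq_finrank]
    refine Finset.sum_lt_sum_of_nonempty ⟨v, (hmemR v).2 hv⟩ fun u hu => ?_
    rw [d6]
    refine mul_lt_mul_of_pos_right ?_ (hlog u)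
    rw [hn2]
    exact_mod_cast sum_rdeg_lt ((hmemR u).1 hu)
  rw [← Finset.mul_sum, ← d4, ← d5] at hlt
  exact lt_irrefl _ hlt

end

end Pool.Agent.Q53.EX.Unr
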