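import Pool.Agent.Q20.EX.Stm
import Pool.Agent.Q53.EX.Desc0
import Pool.Agent.Q53.EX.Desc1

/-!
# Project EX, job EXK: characters of exponent `n` if `ζ_n ∈ F`
-/

set_option autoImplicit false
set_option linter.unusedSectionVars false
set_option linter.deprecated false

namespace Pool.Agent.Q53.EX

open NumberField IsDedekindDomain Pool.Agent.Q5.BR Pool.Agent.Q92.AR Pool.Agent.Q20.EX
open Pool.Agent.Q125.AR (Ray_mono Ram_mono art_eq_sum chi_frob mem_under finite_dvd valuation_eq_exp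
  prin_eq_zero_of_valuation)

/-- no real places -/
theorem no_real {F : Type} [Field F] {n : ℕ} {ζ : F} (hn : 2 < n) (hζ : IsPrimitiveRoot ζ n)
    (φ : F →+* ℝ) : False := by
  have h1 : IsPrimitiveRoot (φ ζ) n := hζ.map_of_injective φ.injective
  have h2 : |φ ζ| ^ n = 1 := by rw [← abs_pow, h1.pow_eq_one, abs_one]
  have h3 : |φ ζ| = 1 := (pow_eq_one_iff_of_nonneg (abs_nonneg _) (by omega)).1 h2
  have h4 : φ ζ ^ 2 = 1 := by rw [← sq_abs, h3, one_pow]
  have h5 := h1.dvd_of_pow_eq_one 2 h4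
  exact absurd (Nat.le_of_dvd (by norm_num) h5) (by omega)

section
variable {F : Type} [Field F] [NumberField F]

theorem val_eq_one_iff {x : Fˣ} {v : HeightOneSpectrum (𝓞 F)} :
    v.valuation F (x : F) = 1 ↔ prin x v = 0 := by
  constructor
  · exact prin_eq_zero_of_valuation
  · intro h
    rw [valuation_eq_exp, h, neg_zero, WithZero.exp_zero]

theorem cast_mem_of_dvd {N N' : ℕ} (h : N ∣ N') {v : HeightOneSpectrum (𝓞 F)}
    (hv : (N : 𝓞 F) ∈ v.asIdeal) : (N' : 𝓞 F) ∈ v.asIdeal := by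
  obtain ⟨k, rfl⟩ := h
  rw [Nat.cast_mul]
  exact v.asIdeal.mul_mem_right _ hv

theorem RayD_exists {N : ℕ} {D : Dv F} (hD : D ∈ RayD F N) : ∃ x : Fˣ, prin x = D := by
  have h1 : RayD F N ≤ (prinHom (F := F)).range := by
    unfold RayD
    rw [AddSubgroup.closure_le]
    rintro _ ⟨x, -, rfl⟩
    exact ⟨Additive.ofMul x, rfl⟩
  obtain ⟨x, hx⟩ := h1 hD
  exact ⟨x.toMul, hx⟩

/-- every divisor is equivalent to a divisor supported at the primes dividing `N` -/
theorem exists_supp (hFin : S_Fin) (F : Type) [Field F] [NumberField F] : ∃ N : ℕ, N ≠ 0 ∧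
    ∀ N' : ℕ, N ∣ N' → ∀ D : Dv F, ∃ x : Fˣ, D - prin x ∈ SupF F (primesOf F N') := by
  classical
  have h1 := hFin F 1 one_ne_zero
  have htop : Pr F 1 = ⊤ := by
    rw [AddSubgroup.eq_top_iff']
    intro D v hv
    exfalso
    rw [Nat.cast_one] at hv
    exact v.isPrime.ne_top ((Ideal.eq_top_iff_one _).2 hv)
  rw [htop, AddSubgroup.relIndex_top_right] at h1
  have : (RayD F 1).FiniteIndex := ⟨h1⟩
  have : Fintype (Dv F ⧸ RayD F 1) := Fintype.ofFinite _
  refine ⟨∏ q : Dv F ⧸ RayD F 1, ∏ v ∈ (q.out).support, Ideal.absNorm v.asIdeal, ?_, ?_⟩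
  · refine Finset.prod_ne_zero_iff.2 fun q _ => Finset.prod_ne_zero_iff.2 fun v _ => ?_
    intro h2
    exact v.ne_bot (Ideal.absNorm_eq_zero_iff.1 h2)
  · intro N' hN' D
    have h2 : -(QuotientAddGroup.mk (s := RayD F 1) D).out + D ∈ RayD F 1 :=
      QuotientAddGroup.eq.1 (QuotientAddGroup.out_eq' _)
    obtain ⟨x, hx⟩ := RayD_exists h2
    refine ⟨x, fun v hv => ?_⟩
    have h3 : D - prin x = (QuotientAddGroup.mk (s := RayD F 1) D).out := by
      rw [hx]
      abel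
    rw [h3]
    by_contra h4
    apply hv
    have h5 : v ∈ ((QuotientAddGroup.mk (s := RayD F 1) D).out).support :=
      Finsupp.mem_support_iff.2 h4
    have h6 : Ideal.absNorm v.asIdeal ∣ N' := by
      refine dvd_trans (dvd_trans (Finset.dvd_prod_of_mem (fun v : HeightOneSpectrum (𝓞 F) =>
        Ideal.absNorm v.asIdeal) h5) ?_) hN'
      exact Finset.dvd_prod_of_mem (fun q : Dv F ⧸ RayD F 1 =>
        ∏ v ∈ (q.out).support, Ideal.absNorm v.asIdeal) (Finset.mem_univ _)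
    exact cast_mem_of_dvd h6 (Ideal.absNorm_mem v.asIdeal)

theorem SU_le_UX {N1 N : ℕ} : SU F N1 ≤ UX F N1 N := by
  intro x hx v _ hv
  exact val_eq_one_iff.2 (hx v hv)

theorem PX_le_UX {n N1 N : ℕ} : PX F n N1 N ≤ UX F N1 N := by
  rintro x ⟨y, hy, z, hz, -, -, rfl⟩
  exact (UX F N1 N).mul_mem ((UX F N1 N).pow_mem hy n) hz

theorem prin_pow (x : Fˣ) (n : ℕ) : prin (x ^ n) = n • prin x :=
  (prinHom (F := F)).map_nsmul n (Additive.ofMul x)

/-- the elements of `SU` which are in `PX` are `n`-th powers -/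
theorem SU_inf_PX {n N1 N : ℕ} (hn : 0 < n) (hn1 : n ∣ N1) (hN : N1 * n ^ 3 ∣ N) (hN0 : N ≠ 0)
    (hK : ∀ a ∈ SU F N1, (∀ v ∈ primesOf F N1, ∃ y : Fˣ,
      v.valuation F ((a : F) / (y : F) ^ n - 1) < v.valuation F (n : F) ^ 2) → ∃ t : Fˣ, a = t ^ n) :
    PX F n N1 N ⊓ SU F N1 ≤ (SU F N1).map (powMonoidHom n) := by
  rintro a ⟨⟨y, hy, z, hz, hz1, hz2, hazy⟩, ha⟩
  obtain ⟨t, ht⟩ : ∃ t : Fˣ, a = t ^ n := by
    refine hK a ha fun v hv => ⟨y, ?_⟩
    have h1 : (a : F) / (y : F) ^ n = (z : F) := by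
      rw [hazy, Units.val_mul, Units.val_pow_eq_pow_val, mul_div_assoc, mul_comm,
        div_mul_cancel₀ _ (pow_ne_zero n y.ne_zero)]
    rw [h1]
    have hv1 : (N1 : 𝓞 F) ∈ v.asIdeal := hv
    have hvN : (N : 𝓞 F) ∈ v.asIdeal := cast_mem_of_dvd ((Dvd.intro _ rfl).trans hN) hv1
    refine lt_of_le_of_lt (hz1 v hv hvN) ?_
    obtain ⟨k, hk⟩ := hN
    have e1 : v.valuation F (N : F) = v.valuation F (N1 : F) * v.valuation F (n : F) ^ 3 *
        v.valuation F (k : F) := by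
      rw [hk, Nat.cast_mul, Nat.cast_mul, Nat.cast_pow, map_mul, map_mul, map_pow]
    have h2 : v.valuation F (k : F) ≤ 1 := by
      have h3 := v.valuation_le_one (K := F) (k : 𝓞 F)
      simpa using h3
    have h3 : v.valuation F (n : F) ≤ 1 := by
      have h3 := v.valuation_le_one (K := F) (n : 𝓞 F)
      simpa using h3
    have h4 : v.valuation F (N1 : F) < 1 := by
      have h := (v.valuation_lt_one_iff_mem (K := F) (N1 : 𝓞 F)).2 hv1
      simpa using h
    have h5 : v.valuation F (n : F) ≠ 0 := by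
      rw [Valuation.ne_zero_iff]
      exact Nat.cast_ne_zero.2 (by omega)
    have h6 : 0 < v.valuation F (n : F) ^ 2 := pow_pos (zero_lt_iff.2 h5) 2
    rw [e1]
    calc v.valuation F (N1 : F) * v.valuation F (n : F) ^ 3 * v.valuation F (k : F)
        ≤ v.valuation F (N1 : F) * v.valuation F (n : F) ^ 3 := mul_le_of_le_one_right' h2
      _ = v.valuation F (N1 : F) * (v.valuation F (n : F) ^ 2 * v.valuation F (n : F)) := by
          rw [← pow_succ]
      _ ≤ v.valuation F (N1 : F) * v.valuation F (n : F) ^ 2 :=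
          mul_le_mul_right (mul_le_of_le_one_right' h3) _
      _ < 1 * v.valuation F (n : F) ^ 2 := mul_lt_mul_of_pos_right h4 h6
      _ = v.valuation F (n : F) ^ 2 := one_mul _
  refine ⟨t, ?_, ht.symm⟩
  intro v hv
  have h1 := ha v hv
  rw [ht, prin_pow, Finsupp.smul_apply, smul_eq_zero] at h1
  exact h1.resolve_left (by omega)

/-- the numerical part -/
theorem index_bound {G : Type} [CommGroup G] (UXg PXg SUg SPg : Subgroup G) {s : ℕ}
    (h1 : PXg ≤ UXg) (h2 : SUg ≤ UXg) (h3 : SPg ≤ SUg) (h4 : PXg ⊓ SUg ≤ SPg)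
    (h5 : PXg.relIndex UXg ≠ 0) (h6 : PXg.relIndex UXg ≤ s ^ 2) (h7 : SPg.relIndex SUg = s)
    (hs : 0 < s) : (PXg ⊔ SUg).relIndex UXg ≠ 0 ∧ (PXg ⊔ SUg).relIndex UXg ≤ s := by
  have e1 : PXg.relIndex (PXg ⊔ SUg) * (PXg ⊔ SUg).relIndex UXg = PXg.relIndex UXg :=
    Subgroup.relIndex_mul_relIndex PXg (PXg ⊔ SUg) UXg le_sup_left (sup_le h1 h2)
  have e2 : PXg.relIndex (PXg ⊔ SUg) = PXg.relIndex SUg := Subgroup.relIndex_sup_left _ _
  rw [e2] at e1
  have h8 : PXg.relIndex SUg ≠ 0 := fun h => h5 (by rw [← e1, h, zero_mul])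
  have h9 : (PXg ⊔ SUg).relIndex UXg ≠ 0 := fun h => h5 (by rw [← e1, h, mul_zero])
  refine ⟨h9, ?_⟩
  have h10 : s ≤ PXg.relIndex SUg := by
    have e3 : PXg.relIndex SUg = (PXg ⊓ SUg).relIndex SUg := (Subgroup.inf_relIndex_right _ _).symm
    rw [e3] at h8 ⊢
    rw [← h7]
    exact Subgroup.relIndex_le_of_le_left h4 h8
  have h11 : s * (PXg ⊔ SUg).relIndex UXg ≤ s * s := by
    calc s * (PXg ⊔ SUg).relIndex UXg ≤ PXg.relIndex SUg * (PXg ⊔ SUg).relIndex UXg :=
          Nat.mul_le_mul_right _ h10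
      _ = PXg.relIndex UXg := e1
      _ ≤ s ^ 2 := h6
      _ = s * s := sq s
  exact Nat.le_of_mul_le_mul_left h11 hs

/-- the number of characters of a finite abelian group, additive notation -/
theorem card_dual (C : Type) [AddCommGroup C] [Finite C] :
    Finite (C →+ Additive ℂˣ) ∧ Nat.card (C →+ Additive ℂˣ) = Nat.card C := by
  have e : (C →+ Additive ℂˣ) ≃ (Multiplicative C →* ℂˣ) := AddMonoidHom.toMultiplicativeLeft
  have hf : Finite (Multiplicative C →* ℂˣ) := finite_chars _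
  refine ⟨Finite.of_equiv _ e.symm, ?_⟩
  rw [Nat.card_congr e]
  have h1 : NeZero (Monoid.exponent (Multiplicative C)) :=
    ⟨Monoid.exponent_ne_zero_of_finite⟩
  rw [CommGroup.card_monoidHom_of_hasEnoughRootsOfUnity (Multiplicative C) ℂ]
  rfl

end

end Pool.Agent.Q53.EX
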