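import Mathlib

/-!
# Job EX-UNR, part A: orders of zeros and functional equations
-/

set_option autoImplicit false

namespace Pool.Agent.Q53.EX.Unr

open Complex Filter Topology
open scoped ComplexConjugate

/-- the reflected function -/
theorem conj_an {g : ℂ → ℂ} {s : ℂ} (hg : AnalyticAt ℂ g (1 - conj s)) :
    AnalyticAt ℂ (fun z => conj (g (1 - conj z))) s := by
  rw [analyticAt_iff_eventually_differentiableAt]
  have h1 : ∀ᶠ z in 𝓝 (1 - conj s), DifferentiableAt ℂ g z :=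
    (analyticAt_iff_eventually_differentiableAt).1 hg
  have hc : Tendsto (fun z : ℂ => 1 - conj z) (𝓝 s) (𝓝 (1 - conj s)) := by
    have : Continuous fun z : ℂ => 1 - conj z := by fun_prop
    exact this.tendsto s
  filter_upwards [hc.eventually h1] with z hz
  have h2 : DifferentiableAt ℂ (fun u : ℂ => g (1 - u)) (conj z) := by
    have h3 : DifferentiableAt ℂ (fun u : ℂ => 1 - u) (conj z) := by fun_prop
    exact DifferentiableAt.comp (conj z) hz h3
  have h4 := h2.conj_conj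
  rw [Complex.conj_conj] at h4
  exact h4

theorem order_conj {U : ℂ → ℂ} (hU : Differentiable ℂ U) (hne : ∃ s, U s ≠ 0) (s : ℂ) :
    analyticOrderAt (fun z => conj (U (1 - conj z))) s = analyticOrderAt U (1 - conj s) := by
  have hA : ∀ z, AnalyticAt ℂ U z := fun z => hU.analyticAt z
  have hnt : analyticOrderAt U (1 - conj s) ≠ ⊤ := by
    intro h
    rw [AnalyticOnNhd.analyticOrderAt_eq_top_iff_eq_zero _ hA] at h
    obtain ⟨z, hz⟩ := hne
    exact hz (by rw [h]; rfl)
  obtain ⟨n, hn⟩ := ENat.ne_top_iff_exists.1 hnt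
  rw [← hn]
  obtain ⟨g, hg, hg0, hgU⟩ := ((hA (1 - conj s)).analyticOrderAt_eq_natCast).1 hn.symm
  refine ((conj_an (hA _)).analyticOrderAt_eq_natCast).2
    ⟨fun z => (-1) ^ n * conj (g (1 - conj z)), analyticAt_const.mul (conj_an hg), ?_, ?_⟩
  · refine mul_ne_zero (pow_ne_zero _ (by norm_num)) ?_
    rw [Ne, map_eq_zero]
    exact hg0
  · have hc : Tendsto (fun z : ℂ => 1 - conj z) (𝓝 s) (𝓝 (1 - conj s)) := by
      have : Continuous fun z : ℂ => 1 - conj z := by fun_prop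
      exact this.tendsto s
    filter_upwards [hc.eventually hgU] with z hz
    rw [hz, smul_eq_mul, smul_eq_mul, map_mul, map_pow]
    have e1 : conj (1 - conj z - (1 - conj s)) = -(z - s) := by
      simp only [map_sub, map_one, Complex.conj_conj]
      ring
    rw [e1, neg_pow]
    ring

/-- an entire function with a functional equation -/
structure FE (U : ℂ → ℂ) (w : ℂ) : Prop where
  diff : Differentiable ℂ U
  w0 : w ≠ 0
  fe : ∀ s, U s = w * conj (U (1 - conj s))
  ne : ∃ s, U s ≠ 0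

theorem FE.order {U : ℂ → ℂ} {w : ℂ} (h : FE U w) (s : ℂ) :
    analyticOrderAt U s = analyticOrderAt U (1 - conj s) := by
  rw [← order_conj h.diff h.ne s]
  have h1 : U = (fun _ => w) * (fun z => conj (U (1 - conj z))) := funext fun z => h.fe z
  conv_lhs => rw [h1]
  rw [analyticOrderAt_mul analyticAt_const (conj_an (h.diff.analyticAt _)),
    (analyticAt_const (v := w)).analyticOrderAt_eq_zero.2 h.w0, zero_add]

theorem FE.ne_top {U : ℂ → ℂ} {w : ℂ} (h : FE U w) (s : ℂ) : analyticOrderAt U s ≠ ⊤ := by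
  intro h1
  rw [AnalyticOnNhd.analyticOrderAt_eq_top_iff_eq_zero _ fun z => h.diff.analyticAt z] at h1
  obtain ⟨z, hz⟩ := h.ne
  exact hz (by rw [h1]; rfl)

theorem half_open : IsOpen {s : ℂ | 0 < s.im} := isOpen_lt continuous_const Complex.continuous_im

theorem half_conn : IsPreconnected {s : ℂ | 0 < s.im} :=
  (convex_halfSpace_im_gt 0).isPreconnected

theorem ord_zero {f : ℂ → ℂ} {s : ℂ} (hf : AnalyticAt ℂ f s) (h : f s ≠ 0) :
    analyticOrderAt f s = 0 := hf.analyticOrderAt_eq_zero.2 h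

/-- **Comparison of two functional equations.** -/
theorem core {U1 U2 A1 A2 P1 P2 : ℂ → ℂ} {w1 w2 : ℂ} (h1 : FE U1 w1) (h2 : FE U2 w2)
    (hA1 : ∀ s : ℂ, 0 < s.im → AnalyticAt ℂ A1 s ∧ A1 s ≠ 0)
    (hA2 : ∀ s : ℂ, 0 < s.im → AnalyticAt ℂ A2 s ∧ A2 s ≠ 0)
    (hP1 : Differentiable ℂ P1) (hP2 : Differentiable ℂ P2)
    (hP1' : ∀ s : ℂ, 0 < s.re → P1 s ≠ 0) (hP2' : ∀ s : ℂ, 0 < s.re → P2 s ≠ 0)
    (h : ∀ s : ℂ, 1 < s.re → U1 s * P1 s * A2 s = U2 s * P2 s * A1 s) (t : ℝ) (ht : 0 < t) :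
    analyticOrderAt P1 (t * I) = analyticOrderAt P2 (t * I) := by
  have hF : AnalyticOnNhd ℂ (U1 * P1 * A2) {s : ℂ | 0 < s.im} := fun s hs =>
    ((h1.diff.analyticAt s).mul (hP1.analyticAt s)).mul (hA2 s hs).1
  have hG : AnalyticOnNhd ℂ (U2 * P2 * A1) {s : ℂ | 0 < s.im} := fun s hs =>
    ((h2.diff.analyticAt s).mul (hP2.analyticAt s)).mul (hA1 s hs).1
  have hopen : IsOpen {s : ℂ | 1 < s.re} := isOpen_lt continuous_const Complex.continuous_re
  have heq : Set.EqOn (U1 * P1 * A2) (U2 * P2 * A1) {s : ℂ | 0 < s.im} := by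
    refine hF.eqOn_of_preconnected_of_eventuallyEq hG half_conn (z₀ := 2 + I)
      (by simp) ?_
    have : {s : ℂ | 1 < s.re} ∈ 𝓝 (2 + I : ℂ) := hopen.mem_nhds (by simp)
    filter_upwards [this] with s hs
    exact h s hs
  have key : ∀ s : ℂ, 0 < s.im → analyticOrderAt U1 s + analyticOrderAt P1 s =
      analyticOrderAt U2 s + analyticOrderAt P2 s := by
    intro s hs
    have e : analyticOrderAt (U1 * P1 * A2) s = analyticOrderAt (U2 * P2 * A1) s := by
      refine analyticOrderAt_congr ?_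
      filter_upwards [half_open.mem_nhds hs] with z hz
      exact heq hz
    rwa [analyticOrderAt_mul ((h1.diff.analyticAt s).mul (hP1.analyticAt s)) (hA2 s hs).1,
      analyticOrderAt_mul (h1.diff.analyticAt s) (hP1.analyticAt s),
      analyticOrderAt_mul ((h2.diff.analyticAt s).mul (hP2.analyticAt s)) (hA1 s hs).1,
      analyticOrderAt_mul (h2.diff.analyticAt s) (hP2.analyticAt s),
      ord_zero (hA1 s hs).1 (hA1 s hs).2, ord_zero (hA2 s hs).1 (hA2 s hs).2, add_zero,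
      add_zero] at e
  have hs1 : (0 : ℝ) < (1 + t * I : ℂ).im := by simpa using ht
  have hs0 : (0 : ℝ) < (t * I : ℂ).im := by simpa using ht
  have hr1 : (0 : ℝ) < (1 + t * I : ℂ).re := by simp
  have k1 := key _ hs1
  rw [ord_zero (hP1.analyticAt _) (hP1' _ hr1), ord_zero (hP2.analyticAt _) (hP2' _ hr1),
    add_zero, add_zero] at k1
  have hrefl : 1 - conj (t * I : ℂ) = 1 + t * I := by
    simp
  have o1 := h1.order (t * I)
  have o2 := h2.order (t * I)
  rw [hrefl] at o1 o2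
  have k0 := key _ hs0
  rw [o1, o2, k1] at k0
  exact (ENat.addLECancellable_of_ne_top (h2.ne_top _)).inj.1 k0

/-- products -/
theorem FE.prod {ι : Type*} (T : Finset ι) {U : ι → ℂ → ℂ} {w : ι → ℂ}
    (h : ∀ i ∈ T, FE (U i) (w i)) (s₀ : ℂ) (hs₀ : ∀ i ∈ T, U i s₀ ≠ 0) :
    FE (fun s => ∏ i ∈ T, U i s) (∏ i ∈ T, w i) := by
  refine ⟨Differentiable.fun_finsetProd fun i hi => (h i hi).diff,
    Finset.prod_ne_zero_iff.2 fun i hi => (h i hi).w0, fun s => ?_,
    ⟨s₀, Finset.prod_ne_zero_iff.2 hs₀⟩⟩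
  rw [map_prod, ← Finset.prod_mul_distrib]
  exact Finset.prod_congr rfl fun i hi => (h i hi).fe s

end Pool.Agent.Q53.EX.Unr
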