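import Mathlib

/-!
# Job EX-UNR, part B: the number of zeros of a finite product of Euler factors on the imaginary axis
-/

set_option autoImplicit false

namespace Pool.Agent.Q53.EX.Unr

open Complex Filter Topology

/-- an Euler factor -/
noncomputable def fac (z : ℂ) (q : ℕ) (s : ℂ) : ℂ := 1 - z * (q : ℂ) ^ (-s)

theorem fac_diff (z : ℂ) {q : ℕ} (hq : 2 ≤ q) : Differentiable ℂ (fac z q) := by
  have h0 : (q : ℂ) ≠ 0 := by exact_mod_cast (by omega : q ≠ 0)
  refine (differentiable_const _).sub ((differentiable_const _).mul ?_)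
  exact fun s => (differentiableAt_id.neg).const_cpow (Or.inl h0)

open scoped Classical in
theorem fac_order {z : ℂ} (hz : ‖z‖ = 1) {q : ℕ} (hq : 2 ≤ q) (t : ℝ) :
    analyticOrderAt (fac z q) (t * I) = if (q : ℂ) ^ (t * I : ℂ) = z then 1 else 0 := by
  have h0 : (q : ℂ) ≠ 0 := by exact_mod_cast (by omega : q ≠ 0)
  have hz0 : z ≠ 0 := by
    rintro rfl
    simp at hz
  have hp : (q : ℂ) ^ (t * I : ℂ) ≠ 0 := by
    rw [Ne, Complex.cpow_eq_zero_iff]
    exact fun h => h0 h.1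
  have hval : fac z q (t * I) = 0 ↔ (q : ℂ) ^ (t * I : ℂ) = z := by
    unfold fac
    rw [sub_eq_zero, Complex.cpow_neg, ← div_eq_mul_inv, eq_div_iff hp, one_mul]
  have hA : AnalyticAt ℂ (fac z q) (t * I) := (fac_diff z hq).analyticAt _
  split_ifs with h
  · refine hA.analyticOrderAt_eq_one_of_zero_deriv_ne_zero (hval.2 h) ?_
    have hd : HasDerivAt (fac z q)
        (-(z * ((q : ℂ) ^ (-(t * I : ℂ)) * Complex.log (q : ℂ) * (-1)))) (t * I) := by
      have h1 : HasDerivAt (fun s : ℂ => (q : ℂ) ^ (-s))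
          ((q : ℂ) ^ (-(t * I : ℂ)) * Complex.log (q : ℂ) * (-1)) (t * I) :=
        ((hasDerivAt_id (t * I : ℂ)).neg).const_cpow (Or.inl h0)
      have h2 := (h1.const_mul z).const_sub 1
      exact h2
    rw [hd.deriv]
    have hl : Complex.log (q : ℂ) ≠ 0 := by
      rw [show ((q : ℂ)) = ((q : ℝ) : ℂ) by push_cast; rfl, ← Complex.ofReal_log (by positivity)]
      have : (1 : ℝ) < q := by exact_mod_cast (by omega : 1 < q)
      exact_mod_cast (Real.log_pos this).ne'
    have hp' : (q : ℂ) ^ (-(t * I : ℂ)) ≠ 0 := by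
      rw [Ne, Complex.cpow_eq_zero_iff]
      exact fun h => h0 h.1
    refine neg_ne_zero.2 (mul_ne_zero hz0 (mul_ne_zero (mul_ne_zero hp' hl) (by norm_num)))
  · exact hA.analyticOrderAt_eq_zero.2 fun h1 => h (hval.1 h1)

open scoped Classical in
theorem prod_order {ι : Type*} (J : Finset ι) {z : ι → ℂ} {q : ι → ℕ} (hz : ∀ i ∈ J, ‖z i‖ = 1)
    (hq : ∀ i ∈ J, 2 ≤ q i) (t : ℝ) :
    analyticOrderAt (fun s => ∏ i ∈ J, fac (z i) (q i) s) (t * I) =
      ((J.filter fun i => (q i : ℂ) ^ (t * I : ℂ) = z i).card : ℕ∞) := by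
  induction J using Finset.induction_on with
  | empty =>
    simp only [Finset.prod_empty, Finset.filter_empty, Finset.card_empty, Nat.cast_zero]
    exact (analyticAt_const (v := (1 : ℂ))).analyticOrderAt_eq_zero.2 one_ne_zero
  | insert a J ha ih =>
    have e : (fun s => ∏ i ∈ insert a J, fac (z i) (q i) s) =
        (fac (z a) (q a)) * fun s => ∏ i ∈ J, fac (z i) (q i) s := by
      funext s
      rw [Finset.prod_insert ha, Pi.mul_apply]
    have hJ : ∀ i ∈ J, 2 ≤ q i := fun i hi => hq i (Finset.mem_insert_of_mem hi)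
    have hd : Differentiable ℂ fun s => ∏ i ∈ J, fac (z i) (q i) s :=
      Differentiable.fun_finsetProd fun i hi => fac_diff _ (hJ i hi)
    rw [e, analyticOrderAt_mul ((fac_diff _ (hq a (Finset.mem_insert_self _ _))).analyticAt _)
      (hd.analyticAt _), ih (fun i hi => hz i (Finset.mem_insert_of_mem hi)) hJ,
      fac_order (hz a (Finset.mem_insert_self _ _)) (hq a (Finset.mem_insert_self _ _)),
      Finset.filter_insert]
    split_ifs with h
    · rw [Finset.card_insert_of_notMem (fun h => ha (Finset.mem_filter.1 h).1)]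
      push_cast
      rw [add_comm]
    · rw [zero_add]

/-- the zeros of a factor -/
theorem exists_zeros {z : ℂ} (hz : ‖z‖ = 1) {q : ℕ} (hq : 2 ≤ q) {T : ℝ} (hT : 0 < T) :
    ∃ Z : Finset ℝ, (∀ t : ℝ, t ∈ Z ↔ (0 < t ∧ t ≤ T ∧ (q : ℂ) ^ (t * I : ℂ) = z)) ∧
      |(Z.card : ℝ) - T * Real.log q / (2 * Real.pi)| ≤ 1 := by
  classical
  set L := Real.log q with hL
  have hL0 : 0 < L := Real.log_pos (by exact_mod_cast (by omega : 1 < q))
  have hpi := Real.pi_pos
  set α : ℝ := Complex.arg z / (2 * Real.pi) with hα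
  have hcpow : ∀ t : ℝ, (q : ℂ) ^ (t * I : ℂ) = Complex.exp (((t * L : ℝ) : ℂ) * I) := by
    intro t
    have h0 : (q : ℂ) ≠ 0 := by exact_mod_cast (by omega : q ≠ 0)
    rw [Complex.cpow_def_of_ne_zero h0, show ((q : ℂ)) = ((q : ℝ) : ℂ) by push_cast; rfl,
      ← Complex.ofReal_log (by positivity), ← hL]
    congr 1
    push_cast
    ring
  have hzexp : z = Complex.exp (((Complex.arg z : ℝ) : ℂ) * I) := by
    have := Complex.norm_mul_exp_arg_mul_I z
    rw [hz, Complex.ofReal_one, one_mul] at this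
    exact this.symm
  have hiff : ∀ t : ℝ, (q : ℂ) ^ (t * I : ℂ) = z ↔ ∃ k : ℤ, t = 2 * Real.pi * (k + α) / L := by
    intro t
    rw [hcpow]
    conv_lhs => rw [hzexp]
    rw [Complex.exp_eq_exp_iff_exists_int]
    refine exists_congr fun k => ?_
    constructor
    · intro h
      have h1 : ((t * L : ℝ) : ℂ) * I = ((Complex.arg z + k * (2 * Real.pi) : ℝ) : ℂ) * I := by
        rw [h]
        push_cast
        ring
      have h2 := mul_right_cancel₀ Complex.I_ne_zero h1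
      have h3 : t * L = Complex.arg z + k * (2 * Real.pi) := by exact_mod_cast h2
      rw [hα]
      field_simp
      linarith
    · intro h
      have h3 : t * L = Complex.arg z + k * (2 * Real.pi) := by
        rw [h, hα]
        field_simp
        ring
      rw [h3]
      push_cast
      ring
  set f : ℤ → ℝ := fun k => 2 * Real.pi * (k + α) / L with hf
  have hfinj : Function.Injective f := by
    intro a b hab
    have h1 : 2 * Real.pi * (a + α) / L = 2 * Real.pi * (b + α) / L := hab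
    have h2 : (a : ℝ) = b := by
      field_simp at h1
      linarith
    exact_mod_cast h2
  refine ⟨(Finset.Ioc ⌊-α⌋ ⌊T * L / (2 * Real.pi) - α⌋).image f, fun t => ?_, ?_⟩
  · rw [Finset.mem_image]
    constructor
    · rintro ⟨k, hk, rfl⟩
      rw [Finset.mem_Ioc, Int.floor_lt, Int.le_floor] at hk
      refine ⟨?_, ?_, (hiff _).2 ⟨k, rfl⟩⟩
      · have : 0 < (k : ℝ) + α := by linarith [hk.1]
        show 0 < 2 * Real.pi * (k + α) / L
        positivity
      · show 2 * Real.pi * (k + α) / L ≤ T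
        have h1 : (k : ℝ) + α ≤ T * L / (2 * Real.pi) := by linarith [hk.2]
        rw [le_div_iff₀ (by positivity)] at h1
        rw [div_le_iff₀ hL0]
        linarith
    · rintro ⟨h1, h2, h3⟩
      obtain ⟨k, hk⟩ := (hiff t).1 h3
      refine ⟨k, ?_, hk.symm⟩
      rw [Finset.mem_Ioc, Int.floor_lt, Int.le_floor]
      have h4 : (k : ℝ) + α = t * L / (2 * Real.pi) := by
        rw [hk]
        field_simp
      constructor
      · have : 0 < t * L / (2 * Real.pi) := by positivity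
        linarith
      · have : t * L / (2 * Real.pi) ≤ T * L / (2 * Real.pi) := by gcongr
        linarith
  · rw [Finset.card_image_of_injective _ hfinj, Int.card_Ioc]
    have hle : ⌊-α⌋ ≤ ⌊T * L / (2 * Real.pi) - α⌋ := by
      refine Int.floor_le_floor ?_
      have : 0 < T * L / (2 * Real.pi) := by positivity
      linarith
    have hcast : (((⌊T * L / (2 * Real.pi) - α⌋ - ⌊-α⌋).toNat : ℕ) : ℝ) =
        (⌊T * L / (2 * Real.pi) - α⌋ : ℝ) - (⌊-α⌋ : ℝ) := by
      have h1 : (((⌊T * L / (2 * Real.pi) - α⌋ - ⌊-α⌋).toNat : ℕ) : ℤ) =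
          ⌊T * L / (2 * Real.pi) - α⌋ - ⌊-α⌋ := Int.toNat_of_nonneg (by omega)
      exact_mod_cast congrArg (fun a : ℤ => (a : ℝ)) h1
    rw [hcast, abs_le]
    have a1 := Int.floor_le (T * L / (2 * Real.pi) - α)
    have a2 := Int.lt_floor_add_one (T * L / (2 * Real.pi) - α)
    have a3 := Int.floor_le (-α)
    have a4 := Int.lt_floor_add_one (-α)
    constructor <;> linarith

open scoped Classical in
/-- the number of zeros of a product -/
theorem count {ι : Type*} (J : Finset ι) {z : ι → ℂ} {q : ι → ℕ} (hz : ∀ i ∈ J, ‖z i‖ = 1)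
    (hq : ∀ i ∈ J, 2 ≤ q i) {T : ℝ} (hT : 0 < T) : ∃ Z : Finset ℝ, (∀ t ∈ Z, 0 < t ∧ t ≤ T) ∧
      ∀ Z' : Finset ℝ, Z ⊆ Z' → (∀ t ∈ Z', 0 < t ∧ t ≤ T) →
      |((∑ t ∈ Z', (J.filter fun i => (q i : ℂ) ^ (t * I : ℂ) = z i).card : ℕ) : ℝ) -
        T * (∑ i ∈ J, Real.log (q i)) / (2 * Real.pi)| ≤ J.card := by
  have h : ∀ i : ι, ∃ Z : Finset ℝ, i ∈ J →
      (∀ t : ℝ, t ∈ Z ↔ (0 < t ∧ t ≤ T ∧ (q i : ℂ) ^ (t * I : ℂ) = z i)) ∧
      |(Z.card : ℝ) - T * Real.log (q i) / (2 * Real.pi)| ≤ 1 := by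
    intro i
    by_cases hi : i ∈ J
    · obtain ⟨Z, hZ⟩ := exists_zeros (hz i hi) (hq i hi) hT
      exact ⟨Z, fun _ => hZ⟩
    · exact ⟨∅, fun h => absurd h hi⟩
  choose Z hZ using h
  refine ⟨J.biUnion Z, fun t ht => ?_, fun Z' hZ' hT' => ?_⟩
  · obtain ⟨i, hi, hti⟩ := Finset.mem_biUnion.1 ht
    have := ((hZ i hi).1 t).1 hti
    exact ⟨this.1, this.2.1⟩
  have e1 : (∑ t ∈ Z', (J.filter fun i => (q i : ℂ) ^ (t * I : ℂ) = z i).card : ℕ) =
      ∑ i ∈ J, (Z i).card := by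
    simp_rw [Finset.card_filter]
    rw [Finset.sum_comm]
    refine Finset.sum_congr rfl fun i hi => ?_
    rw [← Finset.card_filter]
    congr 1
    ext t
    rw [Finset.mem_filter, (hZ i hi).1]
    constructor
    · rintro ⟨h1, h2⟩
      exact ⟨(hT' t h1).1, (hT' t h1).2, h2⟩
    · rintro ⟨h1, h2, h3⟩
      exact ⟨hZ' (Finset.mem_biUnion.2 ⟨i, hi, ((hZ i hi).1 t).2 ⟨h1, h2, h3⟩⟩), h3⟩
  rw [e1, Finset.mul_sum, Finset.sum_div]
  push_cast
  rw [← Finset.sum_sub_distrib]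
  refine (Finset.abs_sum_le_sum_abs _ _).trans ?_
  calc ∑ i ∈ J, |((Z i).card : ℝ) - T * Real.log (q i) / (2 * Real.pi)| ≤ ∑ i ∈ J, (1 : ℝ) :=
        Finset.sum_le_sum fun i hi => (hZ i hi).2
    _ = J.card := by simp

/-- **Two products of Euler factors with the same zeros on the positive imaginary axis have the same
degree.** -/
theorem degree_eq {ι κ : Type*} (J : Finset ι) (J' : Finset κ) {z : ι → ℂ} {q : ι → ℕ}
    {z' : κ → ℂ} {q' : κ → ℕ} (hz : ∀ i ∈ J, ‖z i‖ = 1) (hq : ∀ i ∈ J, 2 ≤ q i)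
    (hz' : ∀ i ∈ J', ‖z' i‖ = 1) (hq' : ∀ i ∈ J', 2 ≤ q' i)
    (h : ∀ t : ℝ, 0 < t → analyticOrderAt (fun s => ∏ i ∈ J, fac (z i) (q i) s) (t * I) =
      analyticOrderAt (fun s => ∏ i ∈ J', fac (z' i) (q' i) s) (t * I)) :
    ∑ i ∈ J, Real.log (q i) = ∑ i ∈ J', Real.log (q' i) := by
  classical
  have hpi := Real.pi_pos
  set A := ∑ i ∈ J, Real.log (q i) with hA
  set B := ∑ i ∈ J', Real.log (q' i) with hB
  have key : ∀ T : ℝ, 0 < T → T * |A - B| ≤ (J.card + J'.card) * (2 * Real.pi) := by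
    intro T hT
    obtain ⟨Z1, h1T, h1⟩ := count J hz hq hT
    obtain ⟨Z2, h2T, h2⟩ := count J' hz' hq' hT
    have hZT : ∀ t ∈ Z1 ∪ Z2, 0 < t ∧ t ≤ T := by
      intro t ht
      rcases Finset.mem_union.1 ht with h3 | h3
      · exact h1T t h3
      · exact h2T t h3
    have e1 := h1 (Z1 ∪ Z2) Finset.subset_union_left hZT
    have e2 := h2 (Z1 ∪ Z2) Finset.subset_union_right hZT
    have e3 : (∑ t ∈ Z1 ∪ Z2, (J.filter fun i => (q i : ℂ) ^ (t * I : ℂ) = z i).card : ℕ) =
        ∑ t ∈ Z1 ∪ Z2, (J'.filter fun i => (q' i : ℂ) ^ (t * I : ℂ) = z' i).card := by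
      refine Finset.sum_congr rfl fun t ht => ?_
      have h4 := h t (hZT t ht).1
      rw [prod_order J hz hq, prod_order J' hz' hq'] at h4
      exact_mod_cast h4
    rw [e3] at e1
    rw [← hA] at e1
    rw [← hB] at e2
    have e4 : |T * A / (2 * Real.pi) - T * B / (2 * Real.pi)| ≤ J.card + J'.card := by
      rw [abs_le] at e1 e2 ⊢
      constructor <;> linarith [e1.1, e1.2, e2.1, e2.2]
    have e5 : T * A / (2 * Real.pi) - T * B / (2 * Real.pi) = T * (A - B) / (2 * Real.pi) := by ring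
    rw [e5, abs_div, abs_mul, abs_of_pos hT, abs_of_pos (by positivity : (0 : ℝ) < 2 * Real.pi),
      div_le_iff₀ (by positivity)] at e4
    exact e4
  by_contra hne
  have hpos : 0 < |A - B| := abs_pos.2 (sub_ne_zero.2 hne)
  have h1 := key (((J.card + J'.card) * (2 * Real.pi) + 1) / |A - B|) (by positivity)
  rw [div_mul_cancel₀ _ hpos.ne'] at h1
  linarith

end Pool.Agent.Q53.EX.Unr
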